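import Pool.Agent.Lib.MP_d0f9e0_co.WHFin.Defs

/-!
# Fourier inversion on `ZMod p`
-/

set_option autoImplicit false

namespace Pool.Agent.Lib.MP_d0f9e0_co.WHFin

open Finset

variable {p : ℕ} [Fact p.Prime] {K : Type*} [Field K]

theorem sum_char (χ : AddChar (ZMod p) K) (hχ : χ ≠ 1) (y : ZMod p) :
    ∑ b, χ (b * y) = if y = 0 then (p : K) else 0 := by
  have h := AddChar.sum_mulShift (R := ZMod p) y (AddChar.IsPrimitive.of_ne_one hχ)
  rw [h, ZMod.card]
  split_ifs <;> simp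

/-- Fourier inversion -/
theorem four_inv (χ : AddChar (ZMod p) K) (hχ : χ ≠ 1) (h : ZMod p → K) (x : ZMod p) :
    ∑ b, (∑ y, h y * χ (b * y)) * χ (-(b * x)) = (p : K) * h x := by
  have h1 : ∀ b : ZMod p, (∑ y, h y * χ (b * y)) * χ (-(b * x)) =
      ∑ y, h y * χ (b * (y - x)) := by
    intro b
    rw [Finset.sum_mul]
    refine Finset.sum_congr rfl fun y _ => ?_
    rw [mul_assoc, ← AddChar.map_add_eq_mul]
    congr 2
    ring
  simp_rw [h1]
  rw [Finset.sum_comm]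
  simp_rw [← Finset.mul_sum, sum_char χ hχ, sub_eq_zero]
  rw [Finset.sum_eq_single x]
  · simp [mul_comm]
  · intro y _ hy
    simp [hy]
  · simp

theorem ov_inv (χ : AddChar (ZMod p) K) (hχ : χ ≠ 1) (ψ φ : ZMod p → K) (a x : ZMod p) :
    ∑ b, ov χ ψ φ a b * χ (-(b * x)) = (p : K) * (ψ x * φ (x + a)) :=
  four_inv χ hχ (fun x => ψ x * φ (x + a)) x

end Pool.Agent.Lib.MP_d0f9e0_co.WHFin
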