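import Mathlib

/-!
# Levels: a difference-graded flat autocorrelation has only one level if `p ≥ 5`
-/

set_option autoImplicit false

namespace Pool.Agent.Lib.MP_d0f9e0_co.WHFin

open Finset Classical

variable {p : ℕ} [Fact p.Prime] {k : Type*} [Field k] [CharZero k]

/-- pairs inside a level -/
private lemma lev_aux {Γ : Type*} {η : ZMod p → k} {u : ZMod p → Γ}
    (h2 : ∀ e, ∑ x, η x * η (x + e) = (if e = 0 then 2 else 1) / ((p : k) + 1))
    (h3 : ∀ x y e, e ≠ 0 → η x ≠ 0 → η (x + e) ≠ 0 → η y ≠ 0 → η (y + e) ≠ 0 → u x = u y)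
    {x x' : ZMod p} (hne : x ≠ x') (hx : η x ≠ 0) (hx' : η x' ≠ 0) {α : k}
    (hα : ∀ z, η z ≠ 0 → (u z = u x ∨ u z = u x') → η z = α) :
    ∃ r : ℕ, 1 ≤ r ∧ (r : k) * (α * α) = 1 / ((p : k) + 1) := by
  have he : x' - x ≠ 0 := sub_ne_zero.mpr (Ne.symm hne)
  have hxe : x + (x' - x) = x' := by ring
  refine ⟨(univ.filter fun z => η z ≠ 0 ∧ η (z + (x' - x)) ≠ 0).card, ?_, ?_⟩
  · rw [Nat.one_le_iff_ne_zero, Finset.card_ne_zero]
    exact ⟨x, by rw [Finset.mem_filter]; exact ⟨Finset.mem_univ _, hx, by rw [hxe]; exact hx'⟩⟩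
  · have h := h2 (x' - x)
    rw [if_neg he] at h
    rw [← h, ← Finset.sum_filter_add_sum_filter_not univ
      (fun z => η z ≠ 0 ∧ η (z + (x' - x)) ≠ 0)]
    rw [Finset.sum_eq_zero (s := univ.filter fun z => ¬ (η z ≠ 0 ∧ η (z + (x' - x)) ≠ 0)),
      add_zero, Finset.sum_congr rfl (g := fun _ => α * α)]
    · rw [Finset.sum_const, nsmul_eq_mul]
    · intro z hz
      rw [Finset.mem_filter] at hz
      obtain ⟨_, hz1, hz2⟩ := hz
      have e1 : u z = u x := h3 z x (x' - x) he hz1 hz2 hx (by rw [hxe]; exact hx')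
      have e2 : u (z + (x' - x)) = u x' := by
        apply h3 (z + (x' - x)) x' (x - x') (sub_ne_zero.mpr hne) hz2 _ hx'
        · rw [show x' + (x - x') = x by ring]; exact hx
        · rw [show z + (x' - x) + (x - x') = z by ring]; exact hz1
      rw [hα z hz1 (Or.inl e1), hα _ hz2 (Or.inr e2)]
    · intro z hz
      rw [Finset.mem_filter] at hz
      by_contra h0
      exact hz.2 ⟨left_ne_zero_of_mul h0, right_ne_zero_of_mul h0⟩

private lemma lev_num {k : Type*} [Field k] [CharZero k] {α β δ : k} {a b r : ℕ} (hα : α ≠ 0)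
    (h1 : α * β = δ) (h2 : (r : k) * (α * α) = δ)
    (h3 : (a : k) * (α * α) + (b : k) * (β * β) = 2 * δ) (ha : 2 ≤ a) (hb : 1 ≤ b) : False := by
  have h4 : β = r * α := by
    have : α * β = α * (r * α) := by rw [h1, ← h2]; ring
    exact mul_left_cancel₀ hα this
  rw [h4, ← h2] at h3
  have h5 : ((a : k) + b * (r * r)) * (α * α) = (2 * r) * (α * α) := by
    linear_combination h3
  have h6 : (a : k) + b * (r * r) = 2 * r := mul_right_cancel₀ (mul_ne_zero hα hα) h5
  have h7 : a + b * (r * r) = 2 * r := by exact_mod_cast h6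
  have h8 : 1 * (r * r) ≤ b * (r * r) := Nat.mul_le_mul_right _ hb
  have h9 : 2 + r * r ≤ 2 * r := by omega
  have h10 : (2 : ℤ) + (r : ℤ) * r ≤ 2 * r := by exact_mod_cast h9
  nlinarith [sq_nonneg ((r : ℤ) - 1)]

theorem levels (hp : 5 ≤ p) {Γ : Type*} (η : ZMod p → k) (u : ZMod p → Γ)
    (h1 : ∑ x, η x = 1)
    (h2 : ∀ e, ∑ x, η x * η (x + e) = (if e = 0 then 2 else 1) / ((p : k) + 1))
    (h3 : ∀ x y e, e ≠ 0 → η x ≠ 0 → η (x + e) ≠ 0 → η y ≠ 0 → η (y + e) ≠ 0 → u x = u y) :
    ∀ x y, η x ≠ 0 → η y ≠ 0 → u x = u y := by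
  intro x₀ y₀ hx₀ hy₀
  by_contra hu
  have hp1 : (p : k) + 1 ≠ 0 := by exact_mod_cast Nat.succ_ne_zero p
  -- across levels
  have hcross : ∀ x y, η x ≠ 0 → η y ≠ 0 → u x ≠ u y → η x * η y = 1 / ((p : k) + 1) := by
    intro x y hx hy hxy
    have hne : y - x ≠ 0 := by
      intro h
      rw [sub_eq_zero] at h
      exact hxy (by rw [h])
    have h := h2 (y - x)
    rw [if_neg hne, Finset.sum_eq_single x] at h
    · rw [← h, show x + (y - x) = y by ring]
    · intro z _ hz
      by_contra h0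
      have hz1 : η z ≠ 0 := left_ne_zero_of_mul h0
      have hz2 : η (z + (y - x)) ≠ 0 := right_ne_zero_of_mul h0
      apply hxy
      apply h3 x y (z - x) (sub_ne_zero.mpr hz) hx _ hy
      · rw [show y + (z - x) = z + (y - x) by ring]; exact hz2
      · rw [show x + (z - x) = z by ring]; exact hz1
    · simp
  have hαβ := hcross x₀ y₀ hx₀ hy₀ hu
  have hB : ∀ y, η y ≠ 0 → u y ≠ u x₀ → η y = η y₀ := by
    intro y hy hyu
    have := hcross x₀ y hx₀ hy (Ne.symm hyu)
    rw [← hαβ] at this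
    exact mul_left_cancel₀ hx₀ this
  have hA : ∀ x, η x ≠ 0 → u x = u x₀ → η x = η x₀ := by
    intro x hx hxu
    have := hcross x y₀ hx hy₀ (by rw [hxu]; exact hu)
    rw [← hαβ] at this
    exact mul_right_cancel₀ hy₀ this
  set A := univ.filter fun x => η x ≠ 0 ∧ u x = u x₀ with hAdef
  set B := univ.filter fun x => η x ≠ 0 ∧ u x ≠ u x₀ with hBdef
  have hsum : (A.card : k) * (η x₀ * η x₀) + (B.card : k) * (η y₀ * η y₀) =
      2 * (1 / ((p : k) + 1)) := by
    have h := h2 0
    rw [if_pos rfl] at h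
    have h4 : ∑ x, η x * η (x + 0) = ∑ x ∈ A, η x₀ * η x₀ + ∑ x ∈ B, η y₀ * η y₀ := by
      have hd : Disjoint A B := by
        rw [Finset.disjoint_left]
        intro x hx hx'
        rw [hAdef, Finset.mem_filter] at hx
        rw [hBdef, Finset.mem_filter] at hx'
        exact hx'.2.2 hx.2.2
      have h5 : ∑ x ∈ A ∪ B, η x * η (x + 0) = ∑ x, η x * η (x + 0) := by
        apply Finset.sum_subset (Finset.subset_univ _)
        intro x _ hx
        rw [Finset.mem_union, not_or, hAdef, hBdef, Finset.mem_filter, Finset.mem_filter] at hx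
        have : η x = 0 := by
          by_contra h0
          by_cases hxu : u x = u x₀
          · exact hx.1 ⟨Finset.mem_univ _, h0, hxu⟩
          · exact hx.2 ⟨Finset.mem_univ _, h0, hxu⟩
        rw [this, zero_mul]
      rw [← h5, Finset.sum_union hd]
      congr 1
      · apply Finset.sum_congr rfl
        intro x hx
        rw [hAdef, Finset.mem_filter] at hx
        rw [add_zero, hA x hx.2.1 hx.2.2]
      · apply Finset.sum_congr rfl
        intro x hx
        rw [hBdef, Finset.mem_filter] at hx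
        rw [add_zero, hB x hx.2.1 hx.2.2]
    rw [h4, Finset.sum_const, Finset.sum_const, nsmul_eq_mul, nsmul_eq_mul] at h
    rw [h]; ring
  have hx₀A : x₀ ∈ A := by
    rw [hAdef, Finset.mem_filter]; exact ⟨Finset.mem_univ _, hx₀, rfl⟩
  have hy₀B : y₀ ∈ B := by
    rw [hBdef, Finset.mem_filter]; exact ⟨Finset.mem_univ _, hy₀, Ne.symm hu⟩
  have hAc : 1 ≤ A.card := Finset.card_pos.mpr ⟨x₀, hx₀A⟩
  have hBc : 1 ≤ B.card := Finset.card_pos.mpr ⟨y₀, hy₀B⟩
  -- at most one point in A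
  have hA1 : A.card < 2 := by
    by_contra hge
    rw [not_lt] at hge
    obtain ⟨x, hx, x', hx', hne⟩ := Finset.one_lt_card.mp (show 1 < A.card by omega)
    rw [hAdef, Finset.mem_filter] at hx hx'
    obtain ⟨r, _, hr⟩ := lev_aux h2 h3 hne hx.2.1 hx'.2.1 (α := η x₀) (by
      intro z hz hzu
      apply hA z hz
      rcases hzu with h | h
      · rw [h, hx.2.2]
      · rw [h, hx'.2.2])
    exact lev_num hx₀ hαβ hr hsum hge hBc
  have hB1 : B.card < 2 := by
    by_contra hge
    rw [not_lt] at hge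
    obtain ⟨x, hx, x', hx', hne⟩ := Finset.one_lt_card.mp (show 1 < B.card by omega)
    rw [hBdef, Finset.mem_filter] at hx hx'
    obtain ⟨r, _, hr⟩ := lev_aux h2 h3 hne hx.2.1 hx'.2.1 (α := η y₀) (by
      intro z hz hzu
      apply hB z hz
      rcases hzu with h | h
      · rw [h]; exact hx.2.2
      · rw [h]; exact hx'.2.2)
    exact lev_num hy₀ (by rw [mul_comm]; exact hαβ) hr (by rw [add_comm]; exact hsum) hge hAc
  -- the support is `{x₀, y₀}`
  have hS : ∀ z, η z ≠ 0 → z = x₀ ∨ z = y₀ := by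
    intro z hz
    by_cases hzu : u z = u x₀
    · left
      exact Finset.card_le_one.mp (by omega : A.card ≤ 1) z
        (by rw [hAdef, Finset.mem_filter]; exact ⟨Finset.mem_univ _, hz, hzu⟩) x₀ hx₀A
    · right
      exact Finset.card_le_one.mp (by omega : B.card ≤ 1) z
        (by rw [hBdef, Finset.mem_filter]; exact ⟨Finset.mem_univ _, hz, hzu⟩) y₀ hy₀B
  obtain ⟨e, he⟩ : ∃ e : ZMod p, e ∉ ({0, y₀ - x₀, x₀ - y₀} : Finset (ZMod p)) := by
    by_contra hall
    push Not at hall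
    have h4 : (univ : Finset (ZMod p)) ⊆ {0, y₀ - x₀, x₀ - y₀} := fun e _ => hall e
    have h5 := Finset.card_le_card h4
    rw [Finset.card_univ, ZMod.card] at h5
    have h6 := Finset.card_le_three (a := (0 : ZMod p)) (b := y₀ - x₀) (c := x₀ - y₀)
    omega
  simp only [Finset.mem_insert, Finset.mem_singleton, not_or] at he
  have h := h2 e
  rw [if_neg he.1, Finset.sum_eq_zero] at h
  · exact (div_ne_zero one_ne_zero hp1) h.symm
  · intro z _
    by_contra h0
    have hz1 : η z ≠ 0 := left_ne_zero_of_mul h0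
    have hz2 : η (z + e) ≠ 0 := right_ne_zero_of_mul h0
    rcases hS z hz1 with h4 | h4 <;> rcases hS _ hz2 with h5 | h5
    · apply he.1
      rw [h4] at h5
      simpa using h5
    · apply he.2.1
      rw [h4] at h5
      rw [← h5]; ring
    · apply he.2.2
      rw [h4] at h5
      rw [← h5]; ring
    · apply he.1
      rw [h4] at h5
      simpa using h5

end Pool.Agent.Lib.MP_d0f9e0_co.WHFin
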