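import Pool.Agent.Lib.MP_d0f9e0_co.WHFin.Cheb

/-!
# The grading trick
-/

set_option autoImplicit false

namespace Pool.Agent.Lib.MP_d0f9e0_co.WHFin

open Finset Classical

variable {p : ℕ} [Fact p.Prime] {k : Type*} [Field k] [CharZero k]

/-- the product of Fourier transforms is the transform of the correlation -/
lemma tt_fourier (χ : AddChar (ZMod p) k) (G G' : ZMod p → k) (b : ZMod p) :
    (∑ x, G x * χ (b * x)) * (∑ x, G' x * χ (-b * x)) =
      ∑ e, χ (-b * e) * ∑ x, G x * G' (x + e) := by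
  rw [Finset.sum_mul]
  simp only [Finset.mul_sum]
  rw [Finset.sum_comm]
  rw [Finset.sum_comm]
  have h1 : ∀ x, ∑ y, G x * χ (b * x) * (G' y * χ (-b * y)) =
      ∑ e, χ (-b * e) * (G x * G' (x + e)) := by
    intro x
    rw [← Equiv.sum_comp (Equiv.addLeft x)]
    apply Finset.sum_congr rfl
    intro e _
    simp only [Equiv.coe_addLeft]
    have h2 : χ (-b * e) = χ (b * x) * χ (-b * (x + e)) := by
      rw [← AddChar.map_add_eq_mul]
      congr 1; ring
    rw [h2]; ring
  rw [Finset.sum_congr rfl fun x _ => h1 x]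
  rw [Finset.sum_comm]

private lemma tt_key (χ : AddChar (ZMod p) k) (hχ : χ ≠ 1) (g g' : ZMod p → k) (a : ZMod p)
    (c : k) (hconv : ∀ e, ∑ x, g x * g' (x + e) = if e = a then c else 0)
    (X' Y' : Finset (ZMod p)) (hX : ∀ x ∈ X', g x ≠ 0) (hY : ∀ y ∈ Y', g' y ≠ 0)
    (hXn : X'.Nonempty) (hYn : Y'.Nonempty)
    (hcl : ∀ x y, g x ≠ 0 → g' y ≠ 0 → ∀ x₁ ∈ X', ∀ y₁ ∈ Y', y - x = y₁ - x₁ → x ∈ X' ∧ y ∈ Y') :
    ∃ x₁ ∈ X', x₁ + a ∈ Y' := by
  by_contra hno
  push Not at hno
  set G : ZMod p → k := fun x => if x ∈ X' then g x else 0 with hG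
  set G' : ZMod p → k := fun y => if y ∈ Y' then g' y else 0 with hG'
  have hGne : ∀ x, G x ≠ 0 ↔ x ∈ X' := by
    intro x
    simp only [hG]
    constructor
    · intro h
      by_contra hx
      rw [if_neg hx] at h
      exact h rfl
    · intro hx
      rw [if_pos hx]; exact hX x hx
  have hG'ne : ∀ y, G' y ≠ 0 ↔ y ∈ Y' := by
    intro y
    simp only [hG']
    constructor
    · intro h
      by_contra hy
      rw [if_neg hy] at h
      exact h rfl
    · intro hy
      rw [if_pos hy]; exact hY y hy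
  have hconv0 : ∀ e, ∑ x, G x * G' (x + e) = 0 := by
    intro e
    by_cases hex : ∃ x₁ ∈ X', x₁ + e ∈ Y'
    · obtain ⟨x₁, hx₁, hy₁⟩ := hex
      have hea : e ≠ a := by
        rintro rfl
        exact hno x₁ hx₁ hy₁
      have h1 : ∑ x, G x * G' (x + e) = ∑ x, g x * g' (x + e) := by
        apply Finset.sum_congr rfl
        intro x _
        by_cases h0 : g x * g' (x + e) = 0
        · rw [h0]
          rcases mul_eq_zero.mp h0 with h2 | h2
          · have : G x = 0 := by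
              by_contra h3
              exact hX x ((hGne x).mp h3) h2
            rw [this, zero_mul]
          · have : G' (x + e) = 0 := by
              by_contra h3
              exact hY _ ((hG'ne _).mp h3) h2
            rw [this, mul_zero]
        · obtain ⟨hx, hy⟩ := hcl x (x + e) (left_ne_zero_of_mul h0) (right_ne_zero_of_mul h0)
            x₁ hx₁ (x₁ + e) hy₁ (by ring)
          simp only [hG, hG', if_pos hx, if_pos hy]
      rw [h1, hconv e, if_neg hea]
    · push Not at hex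
      apply Finset.sum_eq_zero
      intro x _
      by_contra h0
      exact hex x ((hGne x).mp (left_ne_zero_of_mul h0)) ((hG'ne _).mp (right_ne_zero_of_mul h0))
  obtain ⟨x₀, hx₀⟩ := hXn
  obtain ⟨y₀, hy₀⟩ := hYn
  have hpair := cheb_pair χ hχ G G' (fun h => (hGne x₀).mpr hx₀ (congrFun h x₀))
    (fun h => (hG'ne y₀).mpr hy₀ (congrFun h y₀)) (by
      intro b
      rw [tt_fourier]
      apply Finset.sum_eq_zero
      intro e _
      rw [hconv0 e, mul_zero])
  have e1 : (univ.filter fun x => G x ≠ 0) = X' := by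
    ext x; simp [hGne]
  have e2 : (univ.filter fun x => G' x ≠ 0) = Y' := by
    ext x; simp [hG'ne]
  rw [e1, e2] at hpair
  have hd : Disjoint (X'.image fun x => x + a) Y' := by
    rw [Finset.disjoint_left]
    intro z hz hz'
    obtain ⟨x, hx, rfl⟩ := Finset.mem_image.mp hz
    exact hno x hx hz'
  have h4 : (X'.image fun x => x + a).card = X'.card :=
    Finset.card_image_of_injective _ (add_left_injective a)
  have h5 := Finset.card_union_of_disjoint hd
  have h6 : ((X'.image fun x => x + a) ∪ Y').card ≤ p := by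
    have := Finset.card_le_univ ((X'.image fun x => x + a) ∪ Y')
    rwa [ZMod.card] at this
  omega

/-- Let `g ⋆ g'` be a nonzero multiple of the delta function at `a`, and let `u` be labels (with
values in an ordered group with zero, nonzero on the supports) such that `u x / u y` depends only
on `y - x` for `x ∈ supp g`, `y ∈ supp g'`.  Then `u` is constant on `supp g`. -/
theorem ttrick (χ : AddChar (ZMod p) k) (hχ : χ ≠ 1) {Γ : Type*}
    [LinearOrderedCommGroupWithZero Γ] (u : ZMod p → Γ) (g g' : ZMod p → k) (a : ZMod p) (c : k)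
    (hc : c ≠ 0) (hu : ∀ x, g x ≠ 0 → u x ≠ 0) (hu' : ∀ y, g' y ≠ 0 → u y ≠ 0)
    (hconv : ∀ e, ∑ x, g x * g' (x + e) = if e = a then c else 0)
    (hlab : ∀ x y x' y', g x ≠ 0 → g' y ≠ 0 → g x' ≠ 0 → g' y' ≠ 0 → y - x = y' - x' →
      u x * u y' = u x' * u y) :
    ∀ x x', g x ≠ 0 → g x' ≠ 0 → u x = u x' := by
  -- nonempty supports
  have hne : ∃ x, g x * g' (x + a) ≠ 0 := by
    by_contra hall
    push Not at hall
    have h := hconv a
    rw [if_pos rfl, Finset.sum_eq_zero fun x _ => hall x] at h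
    exact hc h.symm
  obtain ⟨x₀, hx₀⟩ := hne
  set S := univ.filter fun x => g x ≠ 0 with hS
  set S' := univ.filter fun y => g' y ≠ 0 with hS'
  have hSn : S.Nonempty := ⟨x₀, by
    rw [hS, Finset.mem_filter]; exact ⟨Finset.mem_univ _, left_ne_zero_of_mul hx₀⟩⟩
  have hS'n : S'.Nonempty := ⟨x₀ + a, by
    rw [hS', Finset.mem_filter]; exact ⟨Finset.mem_univ _, right_ne_zero_of_mul hx₀⟩⟩
  obtain ⟨xM, hxM, hM⟩ := Finset.exists_max_image S u hSn
  obtain ⟨xm, hxm, hm⟩ := Finset.exists_min_image S u hSn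
  obtain ⟨yM, hyM, hM'⟩ := Finset.exists_max_image S' u hS'n
  obtain ⟨ym, hym, hm'⟩ := Finset.exists_min_image S' u hS'n
  have memS : ∀ x, x ∈ S ↔ g x ≠ 0 := by intro x; simp [hS]
  have memS' : ∀ x, x ∈ S' ↔ g' x ≠ 0 := by intro x; simp [hS']
  have pos : ∀ x, g x ≠ 0 → 0 < u x := fun x hx => zero_lt_iff.mpr (hu x hx)
  have pos' : ∀ x, g' x ≠ 0 → 0 < u x := fun x hx => zero_lt_iff.mpr (hu' x hx)
  have pM := pos xM ((memS _).mp hxM)
  have pm := pos xm ((memS _).mp hxm)
  have pM' := pos' yM ((memS' _).mp hyM)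
  have pm' := pos' ym ((memS' _).mp hym)
  -- top of `g`, bottom of `g'`
  obtain ⟨x₁, hx₁, hy₁⟩ := tt_key χ hχ g g' a c hconv (S.filter fun x => u x = u xM)
    (S'.filter fun y => u y = u ym)
    (fun x hx => (memS x).mp (Finset.mem_filter.mp hx).1)
    (fun x hx => (memS' x).mp (Finset.mem_filter.mp hx).1)
    ⟨xM, Finset.mem_filter.mpr ⟨hxM, rfl⟩⟩ ⟨ym, Finset.mem_filter.mpr ⟨hym, rfl⟩⟩ (by
      intro x y hx hy x₁ hx₁ y₁ hy₁ hd
      rw [Finset.mem_filter] at hx₁ hy₁
      have h1 := hlab x y x₁ y₁ hx hy ((memS _).mp hx₁.1) ((memS' _).mp hy₁.1) hd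
      rw [hx₁.2, hy₁.2] at h1
      have h2 : u x ≤ u xM := hM x ((memS x).mpr hx)
      have h3 : u ym ≤ u y := hm' y ((memS' y).mpr hy)
      have h4 : u x * u ym ≤ u xM * u ym := mul_le_mul_left h2 _
      have h5 : u xM * u ym ≤ u xM * u y := mul_le_mul_right h3 _
      have h6 : u xM * u ym = u xM * u y := le_antisymm h5 (h1 ▸ h4)
      have h7 : u ym = u y := mul_left_cancel₀ pM.ne' h6
      have h8 : u x * u ym = u xM * u ym := by rw [h1, ← h7]
      have h9 : u x = u xM := mul_right_cancel₀ pm'.ne' h8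
      exact ⟨Finset.mem_filter.mpr ⟨(memS x).mpr hx, h9⟩,
        Finset.mem_filter.mpr ⟨(memS' y).mpr hy, h7.symm⟩⟩)
  -- bottom of `g`, top of `g'`
  obtain ⟨x₂, hx₂, hy₂⟩ := tt_key χ hχ g g' a c hconv (S.filter fun x => u x = u xm)
    (S'.filter fun y => u y = u yM)
    (fun x hx => (memS x).mp (Finset.mem_filter.mp hx).1)
    (fun x hx => (memS' x).mp (Finset.mem_filter.mp hx).1)
    ⟨xm, Finset.mem_filter.mpr ⟨hxm, rfl⟩⟩ ⟨yM, Finset.mem_filter.mpr ⟨hyM, rfl⟩⟩ (by
      intro x y hx hy x₁ hx₁ y₁ hy₁ hd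
      rw [Finset.mem_filter] at hx₁ hy₁
      have h1 := hlab x y x₁ y₁ hx hy ((memS _).mp hx₁.1) ((memS' _).mp hy₁.1) hd
      rw [hx₁.2, hy₁.2] at h1
      have h2 : u xm ≤ u x := hm x ((memS x).mpr hx)
      have h3 : u y ≤ u yM := hM' y ((memS' y).mpr hy)
      have h4 : u xm * u yM ≤ u x * u yM := mul_le_mul_left h2 _
      have h5 : u xm * u y ≤ u xm * u yM := mul_le_mul_right h3 _
      have h6 : u xm * u y = u xm * u yM := le_antisymm h5 (h1 ▸ h4)
      have h7 : u y = u yM := mul_left_cancel₀ pm.ne' h6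
      have h8 : u x * u yM = u xm * u yM := by rw [h1, h7]
      have h9 : u x = u xm := mul_right_cancel₀ pM'.ne' h8
      exact ⟨Finset.mem_filter.mpr ⟨(memS x).mpr hx, h9⟩,
        Finset.mem_filter.mpr ⟨(memS' y).mpr hy, h7⟩⟩)
  rw [Finset.mem_filter] at hx₁ hy₁ hx₂ hy₂
  have h1 := hlab x₁ (x₁ + a) x₂ (x₂ + a) ((memS _).mp hx₁.1) ((memS' _).mp hy₁.1)
    ((memS _).mp hx₂.1) ((memS' _).mp hy₂.1) (by ring)
  rw [hx₁.2, hy₁.2, hx₂.2, hy₂.2] at h1
  have h2 : u xm ≤ u xM := hm xM hxM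
  have h3 : u ym ≤ u yM := hm' yM hyM
  have h4 : u xm * u yM ≤ u xM * u yM := mul_le_mul_left h2 _
  have h5 : u xm * u ym ≤ u xm * u yM := mul_le_mul_right h3 _
  have h6 : u xM * u yM = u xm * u yM := le_antisymm (h1 ▸ h5) h4
  have h7 : u xM = u xm := mul_right_cancel₀ pM'.ne' h6
  have hconst : ∀ x, g x ≠ 0 → u x = u xm := by
    intro x hx
    exact le_antisymm (h7 ▸ hM x ((memS x).mpr hx)) (hm x ((memS x).mpr hx))
  intro x x' hx hx'
  rw [hconst x hx, hconst x' hx']

end Pool.Agent.Lib.MP_d0f9e0_co.WHFin
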