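import Pool.Agent.Lib.MP_d0f9e0_co.WHFin.Res
import Pool.Agent.Lib.MP_d0f9e0_co.WHFin.Four
import Pool.Agent.Lib.MP_d0f9e0_co.WHFin.Ttrick
import Pool.Agent.Lib.MP_d0f9e0_co.WHFin.Levels

/-!
# All overlaps are units at every place of residue characteristic zero
-/

set_option autoImplicit false

namespace Pool.Agent.Lib.MP_d0f9e0_co.WHFin

open Finset Classical

variable {p : ℕ} [Fact p.Prime] {K : Type*} [Field K]

/-- the valuations of opposite overlaps are inverse to each other -/
theorem partD_val_pair (V : ValuationSubring K) (χ : AddChar (ZMod p) K)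
    (hV : ∀ n : ℕ, n ≠ 0 → V.valuation (n : K) = 1) (ψ φ : ZMod p → K) (h : IsWH χ ψ φ)
    (a b : ZMod p) :
    V.valuation (ov χ ψ φ a b) * V.valuation (ov χ ψ φ (-a) (-b)) = 1 := by
  by_cases hab : (a, b) = (0, 0)
  · rw [Prod.mk.injEq] at hab
    rw [hab.1, hab.2, neg_zero, h.zero, map_one, one_mul]
  · rw [← map_mul, h.pair a b hab, map_div₀, val_char]
    have := hV (p + 1) (Nat.succ_ne_zero p)
    push_cast at this
    rw [this, div_one]

/-- the quadruple sums: `∑_x ψ(x) φ(x+a) ψ(x+e) φ(x+e-a) = (δ_{a,0} + δ_{a,e}) / (p+1)` -/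
theorem quad_sum (hpK : (p : K) ≠ 0) (hp1 : (p : K) + 1 ≠ 0) (χ : AddChar (ZMod p) K)
    (hχ : χ ≠ 1) (ψ φ : ZMod p → K) (h : IsWH χ ψ φ) (a e : ZMod p) :
    ∑ x, ψ x * φ (x + a) * (ψ (x + e) * φ (x + e - a)) =
      ((if a = 0 then 1 else 0) + (if a = e then 1 else 0)) / ((p : K) + 1) := by
  -- expand `∑_b χ(be) A_{a,b} A_{-a,-b}`
  have h1 : ∑ b, χ (b * e) * (ov χ ψ φ a b * ov χ ψ φ (-a) (-b)) =
      (p : K) * ∑ x, ψ x * φ (x + a) * (ψ (x + e) * φ (x + e - a)) := by
    have h2 : ∀ b : ZMod p, χ (b * e) * (ov χ ψ φ a b * ov χ ψ φ (-a) (-b)) =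
        ∑ x, ∑ y, ψ x * φ (x + a) * (ψ y * φ (y - a)) * χ (b * (x + e - y)) := by
      intro b
      rw [ov, ov, Finset.sum_mul_sum, Finset.mul_sum]
      refine Finset.sum_congr rfl fun x _ => ?_
      rw [Finset.mul_sum]
      refine Finset.sum_congr rfl fun y _ => ?_
      have h3 : χ (b * (x + e - y)) = χ (b * e) * (χ (b * x) * χ (-b * y)) := by
        rw [← AddChar.map_add_eq_mul, ← AddChar.map_add_eq_mul]
        congr 1
        ring
      rw [h3, sub_eq_add_neg y a]
      ring
    simp_rw [h2]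
    rw [Finset.sum_comm, Finset.mul_sum]
    refine Finset.sum_congr rfl fun x _ => ?_
    rw [Finset.sum_comm]
    simp_rw [← Finset.mul_sum, sum_char χ hχ]
    rw [Finset.sum_eq_single (x + e)]
    · rw [if_pos (sub_self _)]
      ring
    · intro y _ hy
      rw [if_neg (sub_ne_zero.2 hy.symm), mul_zero]
    · simp
  -- evaluate
  have h4 : ∀ b : ZMod p, χ (b * e) * (ov χ ψ φ a b * ov χ ψ φ (-a) (-b)) =
      χ (b * (e - a)) / ((p : K) + 1) + (if b = 0 then
        (if a = 0 then (p : K) / ((p : K) + 1) else 0) else 0) := by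
    intro b
    by_cases hab : (a, b) = (0, 0)
    · rw [Prod.mk.injEq] at hab
      obtain ⟨rfl, rfl⟩ := hab
      rw [neg_zero, h.zero]
      simp only [zero_mul, AddChar.map_zero_eq_one, mul_one, if_true]
      field_simp
      ring
    · rw [h.pair a b hab]
      have h5 : χ (b * (e - a)) = χ (b * e) * χ (-(a * b)) := by
        rw [← AddChar.map_add_eq_mul]
        congr 1
        ring
      have h6 : (if b = 0 then (if a = 0 then (p : K) / ((p : K) + 1) else 0) else 0) = 0 := by
        split_ifs with hb ha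
        · exact absurd (by rw [ha, hb]) hab
        · rfl
        · rfl
      rw [h5, h6]
      ring
  simp_rw [h4] at h1
  rw [Finset.sum_add_distrib, ← Finset.sum_div, sum_char χ hχ, Finset.sum_ite_eq' univ (0 : ZMod p),
    if_pos (Finset.mem_univ _)] at h1
  apply mul_left_cancel₀ hpK
  rw [← h1]
  simp only [sub_eq_zero, eq_comm (a := e)]
  split_ifs <;> ring

theorem partD (hp : 5 ≤ p) (V : ValuationSubring K) (χ : AddChar (ZMod p) K) [CharZero K]
    (hV : ∀ n : ℕ, n ≠ 0 → V.valuation (n : K) = 1) (hχ : χ ≠ 1) (ψ φ : ZMod p → K)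
    (h : IsWH χ ψ φ)
    (hw : ∀ a b, V.valuation (ov χ ψ φ a b) = V.valuation (ov χ ψ φ a 0))
    (hm : ∀ a x, V.valuation (ψ x * φ (x + a)) ≤ V.valuation (ov χ ψ φ a 0)) (a : ZMod p) :
    V.valuation (ov χ ψ φ a 0) = 1 := by
  have hp0 : p ≠ 0 := by omega
  have hpK : (p : K) ≠ 0 := Nat.cast_ne_zero.2 hp0
  have hp1 : (p : K) + 1 ≠ 0 := by exact_mod_cast Nat.succ_ne_zero p
  have hpV : V.valuation (p : K) = 1 := hV p hp0
  have hp1V : V.valuation ((p : K) + 1) = 1 := by
    have := hV (p + 1) (Nat.succ_ne_zero p)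
    push_cast at this
    exact this
  have hchar0 : CharZero (IsLocalRing.ResidueField V) := charZero_residue V hV
  -- the norms
  have hmm : ∀ a, V.valuation (ov χ ψ φ a 0) * V.valuation (ov χ ψ φ (-a) 0) = 1 := by
    intro a
    have := partD_val_pair V χ hV ψ φ h a 0
    rwa [neg_zero] at this
  have hne : ∀ a, ov χ ψ φ a 0 ≠ 0 := by
    intro a h0
    have := hmm a
    rw [h0, map_zero, zero_mul] at this
    exact zero_ne_one this
  have hpos : ∀ a, 0 < V.valuation (ov χ ψ φ a 0) := by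
    intro a
    rw [zero_lt_iff, Ne, map_eq_zero]
    exact hne a
  -- two equalities
  have key : ∀ x y c d, V.valuation (ψ x * φ (x + c)) = V.valuation (ov χ ψ φ c 0) →
      V.valuation (ψ y * φ (y - c)) = V.valuation (ov χ ψ φ (-c) 0) → d = y - x →
      V.valuation (ψ y) * V.valuation (ov χ ψ φ c 0) =
        V.valuation (ψ x) * V.valuation (ov χ ψ φ (c - d) 0) := by
    intro x y c d h1 h2 hd
    have h3 := hm (d - c) x
    have h4 := hm (c - d) y
    have e3 : x + (d - c) = y - c := by rw [hd]; ring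
    have e4 : y + (c - d) = x + c := by rw [hd]; ring
    rw [e3] at h3
    rw [e4] at h4
    have h5 : V.valuation (ψ x * φ (y - c)) * V.valuation (ψ y * φ (x + c)) = 1 := by
      rw [← map_mul]
      have : ψ x * φ (y - c) * (ψ y * φ (x + c)) = (ψ x * φ (x + c)) * (ψ y * φ (y - c)) := by
        ring
      rw [this, map_mul, h1, h2, hmm]
    have h6 : V.valuation (ov χ ψ φ (d - c) 0) * V.valuation (ov χ ψ φ (c - d) 0) = 1 := by
      have := hmm (d - c)
      rwa [neg_sub] at this
    have h7 : V.valuation (ψ y * φ (x + c)) = V.valuation (ov χ ψ φ (c - d) 0) := by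
      refine le_antisymm h4 ?_
      by_contra hlt
      push Not at hlt
      have h8 : V.valuation (ψ x * φ (y - c)) * V.valuation (ψ y * φ (x + c)) <
          V.valuation (ov χ ψ φ (d - c) 0) * V.valuation (ov χ ψ φ (c - d) 0) :=
        lt_of_le_of_lt (mul_le_mul_left h3 _) (mul_lt_mul_of_pos_left hlt (hpos _))
      rw [h5, h6] at h8
      exact lt_irrefl _ h8
    rw [← h1, ← h7, map_mul, map_mul]
    ac_rfl
  -- reductions
  obtain ⟨χ', hχ'⟩ := exists_rsChar V χ
  have hχ'1 : χ' ≠ 1 := rsChar_ne_one V χ hpV hχ χ' hχ'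
  have hc1 : V.valuation (1 / ((p : K) + 1)) = 1 := by rw [map_div₀, map_one, hp1V, div_one]
  -- the norms of `ψ` are constant on the maximal sets
  have hT : ∀ a, a ≠ 0 → ∀ x x', V.valuation (ψ x * φ (x + a)) = V.valuation (ov χ ψ φ a 0) →
      V.valuation (ψ x' * φ (x' + a)) = V.valuation (ov χ ψ φ a 0) →
      V.valuation (ψ x) = V.valuation (ψ x') := by
    intro a ha
    have hpa := hpos a
    have hgle : ∀ x, V.valuation (ψ x * φ (x + a) / ov χ ψ φ a 0) ≤ 1 := by
      intro x
      rw [map_div₀]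
      exact div_le_one_of_le₀ (hm a x) zero_le
    have hg'le0 : ∀ y, V.valuation (ψ y * φ (y - a)) ≤ V.valuation (ov χ ψ φ (-a) 0) := by
      intro y
      have := hm (-a) y
      rwa [← sub_eq_add_neg] at this
    have hg'le : ∀ y, V.valuation (ψ y * φ (y - a) * ov χ ψ φ a 0) ≤ 1 := by
      intro y
      rw [map_mul, ← hmm a, mul_comm (V.valuation (ov χ ψ φ a 0))]
      exact mul_le_mul_left (hg'le0 y) _
    have hgiff : ∀ x, rs V (ψ x * φ (x + a) / ov χ ψ φ a 0) ≠ 0 ↔
        V.valuation (ψ x * φ (x + a)) = V.valuation (ov χ ψ φ a 0) := by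
      intro x
      rw [Ne, rs_eq_zero_iff V (hgle x), not_lt, map_div₀, one_le_div₀ hpa]
      exact ⟨fun h => le_antisymm (hm a x) h, fun h => h.ge⟩
    have hg'iff : ∀ y, rs V (ψ y * φ (y - a) * ov χ ψ φ a 0) ≠ 0 ↔
        V.valuation (ψ y * φ (y - a)) = V.valuation (ov χ ψ φ (-a) 0) := by
      intro y
      rw [Ne, rs_eq_zero_iff V (hg'le y), not_lt, map_mul, ← hmm a,
        mul_comm (V.valuation (ov χ ψ φ a 0)), mul_le_mul_iff_left₀ hpa]
      exact ⟨fun h => le_antisymm (hg'le0 y) h, fun h => h.ge⟩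
    have hcne : rs V (1 / ((p : K) + 1)) ≠ 0 := rs_ne_zero V hc1
    have hconv : ∀ e, ∑ x, rs V (ψ x * φ (x + a) / ov χ ψ φ a 0) *
        rs V (ψ (x + e) * φ (x + e - a) * ov χ ψ φ a 0) =
          if e = a then rs V (1 / ((p : K) + 1)) else 0 := by
      intro e
      have h1 : ∀ x, rs V (ψ x * φ (x + a) / ov χ ψ φ a 0) *
          rs V (ψ (x + e) * φ (x + e - a) * ov χ ψ φ a 0) =
            rs V (ψ x * φ (x + a) * (ψ (x + e) * φ (x + e - a))) := by
        intro x
        rw [← rs_mul V (hgle x) (hg'le (x + e))]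
        congr 1
        have := hne a
        field_simp
      have h2 : ∀ x ∈ (univ : Finset (ZMod p)),
          V.valuation (ψ x * φ (x + a) * (ψ (x + e) * φ (x + e - a))) ≤ 1 := by
        intro x _
        rw [map_mul, ← hmm a]
        exact mul_le_mul' (hm a x) (hg'le0 (x + e))
      rw [Finset.sum_congr rfl fun x _ => h1 x, ← rs_sum V _ _ h2,
        quad_sum hpK hp1 χ hχ ψ φ h a e, if_neg ha, zero_add]
      by_cases hea : e = a
      · rw [if_pos hea.symm, if_pos hea]
      · rw [if_neg (Ne.symm hea), if_neg hea, zero_div, rs_zero]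
    have htt := ttrick χ' hχ'1 (fun x => V.valuation (ψ x))
      (fun x => rs V (ψ x * φ (x + a) / ov χ ψ φ a 0))
      (fun y => rs V (ψ y * φ (y - a) * ov χ ψ φ a 0)) a (rs V (1 / ((p : K) + 1))) hcne
      (by
        intro x hx h0
        rw [hgiff] at hx
        rw [map_mul, h0, zero_mul] at hx
        exact hpa.ne hx)
      (by
        intro y hy h0
        rw [hg'iff] at hy
        rw [map_mul, h0, zero_mul] at hy
        exact (hpos (-a)).ne hy)
      hconv
      (by
        intro x y x' y' hx hy hx' hy' hd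
        rw [hgiff] at hx hx'
        rw [hg'iff] at hy hy'
        have k1 := key x y a (y - x) hx hy rfl
        have k2 := key x' y' a (y - x) hx' hy' hd
        apply mul_right_cancel₀ hpa.ne'
        calc V.valuation (ψ x) * V.valuation (ψ y') * V.valuation (ov χ ψ φ a 0)
            = V.valuation (ψ x) * (V.valuation (ψ y') * V.valuation (ov χ ψ φ a 0)) := by
              rw [mul_assoc]
          _ = V.valuation (ψ x) * (V.valuation (ψ x') *
              V.valuation (ov χ ψ φ (a - (y - x)) 0)) := by rw [k2]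
          _ = V.valuation (ψ x') * (V.valuation (ψ x) *
              V.valuation (ov χ ψ φ (a - (y - x)) 0)) := by ac_rfl
          _ = V.valuation (ψ x') * (V.valuation (ψ y) * V.valuation (ov χ ψ φ a 0)) := by
              rw [k1]
          _ = _ := by rw [mul_assoc])
    intro x x' hx hx'
    exact htt x x' ((hgiff x).2 hx) ((hgiff x').2 hx')
  -- the diagonal
  have h00 : V.valuation (ov χ ψ φ 0 0) = 1 := by rw [h.zero, map_one]
  have hηle : ∀ x, V.valuation (ψ x * φ x) ≤ 1 := by
    intro x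
    have := hm 0 x
    rwa [add_zero, h00] at this
  have hηiff : ∀ x, rs V (ψ x * φ x) ≠ 0 ↔ V.valuation (ψ x * φ x) = 1 := by
    intro x
    rw [Ne, rs_eq_zero_iff V (hηle x), not_lt]
    exact ⟨fun h => le_antisymm (hηle x) h, fun h => h.ge⟩
  -- two maximal diagonal entries give a maximal off diagonal entry
  have hoff : ∀ x e, V.valuation (ψ x * φ x) = 1 → V.valuation (ψ (x + e) * φ (x + e)) = 1 →
      V.valuation (ψ x * φ (x + e)) = V.valuation (ov χ ψ φ e 0) := by
    intro x e h1 h2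
    refine le_antisymm (hm e x) ?_
    by_contra hlt
    push Not at hlt
    have h3 : V.valuation (ψ x * φ (x + e)) * V.valuation (ψ (x + e) * φ x) = 1 := by
      rw [← map_mul]
      have : ψ x * φ (x + e) * (ψ (x + e) * φ x) = (ψ x * φ x) * (ψ (x + e) * φ (x + e)) := by
        ring
      rw [this, map_mul, h1, h2, one_mul]
    have h4 : V.valuation (ψ (x + e) * φ x) ≤ V.valuation (ov χ ψ φ (-e) 0) := by
      have := hm (-e) (x + e)
      rwa [add_neg_cancel_right] at this
    have h5 : V.valuation (ψ x * φ (x + e)) * V.valuation (ψ (x + e) * φ x) <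
        V.valuation (ov χ ψ φ e 0) * V.valuation (ov χ ψ φ (-e) 0) :=
      lt_of_le_of_lt (mul_le_mul_right h4 _) (mul_lt_mul_of_pos_right hlt (hpos _))
    rw [h3, hmm] at h5
    exact lt_irrefl _ h5
  have hp1res : ((p : IsLocalRing.ResidueField V) + 1) ≠ 0 := by
    exact_mod_cast Nat.succ_ne_zero p
  have hinv : rs V (1 / ((p : K) + 1)) = 1 / ((p : IsLocalRing.ResidueField V) + 1) := by
    rw [eq_div_iff hp1res]
    have h1 : ((p : IsLocalRing.ResidueField V) + 1) = rs V ((p : K) + 1) := by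
      rw [rs_add V hpV.le (by rw [map_one]), rs_natCast, rs_one]
    rw [h1, ← rs_mul V hc1.le hp1V.le, one_div, inv_mul_cancel₀ hp1, rs_one]
  have hquad : ∀ e, ∑ x, rs V (ψ x * φ x) * rs V (ψ (x + e) * φ (x + e)) =
      (if e = 0 then 2 else 1) / ((p : IsLocalRing.ResidueField V) + 1) := by
    intro e
    have h1 : ∀ x, rs V (ψ x * φ x) * rs V (ψ (x + e) * φ (x + e)) =
        rs V (ψ x * φ x * (ψ (x + e) * φ (x + e))) := fun x =>
      (rs_mul V (hηle x) (hηle (x + e))).symm
    have h2 : ∀ x ∈ (univ : Finset (ZMod p)),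
        V.valuation (ψ x * φ x * (ψ (x + e) * φ (x + e))) ≤ 1 := by
      intro x _
      rw [map_mul]
      exact mul_le_one' (hηle x) (hηle (x + e))
    have h3 := quad_sum hpK hp1 χ hχ ψ φ h 0 e
    simp only [add_zero, sub_zero, if_true] at h3
    rw [Finset.sum_congr rfl fun x _ => h1 x, ← rs_sum V _ _ h2, h3]
    by_cases he : e = 0
    · rw [if_pos he.symm, if_pos he]
      have h4 : ((1 : K) + 1) / ((p : K) + 1) = 1 / ((p : K) + 1) + 1 / ((p : K) + 1) := by
        ring
      rw [h4, rs_add V hc1.le hc1.le, hinv]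
      ring
    · rw [if_neg (Ne.symm he), if_neg he, add_zero, hinv]
  have hlev := levels hp (fun x => rs V (ψ x * φ x)) (fun x => V.valuation (ψ x))
    (by
      rw [← rs_sum V _ _ fun x _ => hηle x]
      have := h.zero
      rw [ov] at this
      simp only [add_zero, zero_mul, AddChar.map_zero_eq_one, mul_one] at this
      rw [this, rs_one])
    hquad
    (by
      intro x y e he h1 h2 h3 h4
      rw [hηiff] at h1 h2 h3 h4
      exact hT e he x y (hoff x e h1 h2) (hoff y e h3 h4))
  -- conclusion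
  by_cases ha : a = 0
  · rw [ha, h00]
  obtain ⟨x, hx⟩ : ∃ x, rs V (ψ x * φ x) * rs V (ψ (x + a) * φ (x + a)) ≠ 0 := by
    by_contra hcon
    push Not at hcon
    have h1 := hquad a
    rw [Finset.sum_eq_zero fun x _ => hcon x, if_neg ha] at h1
    exact (div_ne_zero one_ne_zero hp1res) h1.symm
  have hx1 := left_ne_zero_of_mul hx
  have hx2 := right_ne_zero_of_mul hx
  have h5 : V.valuation (ψ x) = V.valuation (ψ (x + a)) := hlev x (x + a) hx1 hx2
  rw [hηiff] at hx1 hx2
  rw [← hoff x a hx1 hx2, map_mul, h5, ← map_mul, hx2]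

end Pool.Agent.Lib.MP_d0f9e0_co.WHFin
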