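import Mathlib

/-!
# Abstract core: cyclic modules over `κ[X,Y]` of small dimension with an element of large degree
-/

set_option autoImplicit false

namespace Pool.Agent.Lib.MP_d0f9e0_co.WHFin

namespace Abs

variable {κ : Type*} [Field κ] {W : Type*} [AddCommGroup W] [Module κ W]

/-- the elements whose array vanishes in total degree at least `t` -/
def Wlt (X Y : W →ₗ[κ] W) (e : W →ₗ[κ] κ) (t : ℕ) : Submodule κ W where
  carrier := {w | ∀ i j : ℕ, t ≤ i + j → e ((X ^ i * Y ^ j) w) = 0}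
  add_mem' := by
    intro a b ha hb i j hij
    rw [map_add, map_add, ha i j hij, hb i j hij, add_zero]
  zero_mem' := by
    intro i j hij
    rw [map_zero, map_zero]
  smul_mem' := by
    intro c a ha i j hij
    rw [map_smul, map_smul, ha i j hij, smul_zero]

variable {X Y : W →ₗ[κ] W} {e : W →ₗ[κ] κ}

theorem mem_Wlt {t : ℕ} {w : W} :
    w ∈ Wlt X Y e t ↔ ∀ i j : ℕ, t ≤ i + j → e ((X ^ i * Y ^ j) w) = 0 := Iff.rfl

theorem Wlt_mono {s t : ℕ} (h : s ≤ t) : Wlt X Y e s ≤ Wlt X Y e t :=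
  fun _ hw i j hij => hw i j (h.trans hij)

theorem pow_mul_comm' (hXY : Commute X Y) (i j a b : ℕ) :
    (X ^ i * Y ^ j) * (X ^ a * Y ^ b) = X ^ (i + a) * Y ^ (j + b) := by
  have h : Commute (Y ^ j) (X ^ a) := (hXY.symm.pow_pow j a)
  calc (X ^ i * Y ^ j) * (X ^ a * Y ^ b) = X ^ i * (Y ^ j * X ^ a) * Y ^ b := by
        simp only [mul_assoc]
    _ = X ^ i * (X ^ a * Y ^ j) * Y ^ b := by rw [h.eq]
    _ = X ^ (i + a) * Y ^ (j + b) := by
        rw [pow_add, pow_add]; simp only [mul_assoc]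

theorem arr_mul (hXY : Commute X Y) (i j a b : ℕ) (w : W) :
    (X ^ i * Y ^ j) ((X ^ a * Y ^ b) w) = (X ^ (i + a) * Y ^ (j + b)) w := by
  rw [← pow_mul_comm' hXY]; rfl

theorem mon_mem (hXY : Commute X Y) {t s a b : ℕ} {w : W} (hw : w ∈ Wlt X Y e t)
    (h : t ≤ s + (a + b)) : (X ^ a * Y ^ b) w ∈ Wlt X Y e s := by
  intro i j hij
  rw [arr_mul hXY]
  exact hw _ _ (by omega)

theorem X_mem (hXY : Commute X Y) {t : ℕ} {w : W} (hw : w ∈ Wlt X Y e (t + 1)) :
    X w ∈ Wlt X Y e t := by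
  have := mon_mem hXY (s := t) (a := 1) (b := 0) hw (by omega)
  simpa using this

theorem Y_mem (hXY : Commute X Y) {t : ℕ} {w : W} (hw : w ∈ Wlt X Y e (t + 1)) :
    Y w ∈ Wlt X Y e t := by
  have := mon_mem hXY (s := t) (a := 0) (b := 1) hw (by omega)
  simpa using this

theorem mem_of_XY (hXY : Commute X Y) {t : ℕ} {w : W} (h1 : X w ∈ Wlt X Y e t)
    (h2 : Y w ∈ Wlt X Y e t) : w ∈ Wlt X Y e (t + 1) := by
  intro i j hij
  rcases Nat.eq_zero_or_pos i with hi | hi
  · have hj : 1 ≤ j := by omega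
    have := h2 i (j - 1) (by omega)
    have e1 : (X ^ i * Y ^ (j - 1)) (Y w) = (X ^ i * Y ^ j) w := by
      have := arr_mul hXY i (j - 1) 0 1 w
      have h3 : j - 1 + 1 = j := by omega
      rw [h3] at this
      simpa using this
    rwa [e1] at this
  · have := h1 (i - 1) j (by omega)
    have e1 : (X ^ (i - 1) * Y ^ j) (X w) = (X ^ i * Y ^ j) w := by
      have := arr_mul hXY (i - 1) j 1 0 w
      have h3 : i - 1 + 1 = i := by omega
      rw [h3] at this
      simpa using this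
    rwa [e1] at this

/-- the `t`-th graded piece has dimension at most one -/
def One (X Y : W →ₗ[κ] W) (e : W →ₗ[κ] κ) (t : ℕ) : Prop :=
  ∃ g ∈ Wlt X Y e (t + 1), ∀ w ∈ Wlt X Y e (t + 1), ∃ c : κ, w - c • g ∈ Wlt X Y e t

/-- if a map `Z` from the `(t+1)`-st piece to the `t`-th is injective, `One` goes up -/
theorem one_up {Z : W →ₗ[κ] W} {t : ℕ} (hZ : ∀ w ∈ Wlt X Y e (t + 2), Z w ∈ Wlt X Y e (t + 1))
    (h1 : One X Y e t)
    (hinj : ∀ l ∈ Wlt X Y e (t + 2), Z l ∈ Wlt X Y e t → l ∈ Wlt X Y e (t + 1)) :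
    One X Y e (t + 1) := by
  obtain ⟨g, hg, hgs⟩ := h1
  by_cases hall : ∀ w ∈ Wlt X Y e (t + 2), w ∈ Wlt X Y e (t + 1)
  · refine ⟨0, Submodule.zero_mem _, fun w hw => ⟨0, ?_⟩⟩
    simpa using hall w hw
  · push Not at hall
    obtain ⟨g', hg', hg'n⟩ := hall
    obtain ⟨c', hc'⟩ := hgs (Z g') (hZ g' hg')
    have hc'0 : c' ≠ 0 := by
      rintro rfl
      apply hg'n
      apply hinj g' hg'
      simpa using hc'
    refine ⟨g', hg', fun w hw => ?_⟩
    obtain ⟨c, hc⟩ := hgs (Z w) (hZ w hw)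
    refine ⟨c / c', hinj _ ?_ ?_⟩
    · exact Submodule.sub_mem _ hw (Submodule.smul_mem _ _ hg')
    · have : Z (w - (c / c') • g') = (Z w - c • g) - (c / c') • (Z g' - c' • g) := by
        rw [map_sub, map_smul, smul_sub, smul_smul, div_mul_cancel₀ _ hc'0]
        abel
      rw [this]
      exact Submodule.sub_mem _ hc (Submodule.smul_mem _ _ hc')

theorem one_succ (hXY : Commute X Y) {t : ℕ} (ht : 1 ≤ t) (h1 : One X Y e t) :
    One X Y e (t + 1) := by
  by_cases hA : ∀ l ∈ Wlt X Y e (t + 2), X l ∈ Wlt X Y e t → l ∈ Wlt X Y e (t + 1)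
  · exact one_up (fun w hw => X_mem hXY hw) h1 hA
  by_cases hB : ∀ l ∈ Wlt X Y e (t + 2), Y l ∈ Wlt X Y e t → l ∈ Wlt X Y e (t + 1)
  · exact one_up (fun w hw => Y_mem hXY hw) h1 hB
  exfalso
  push Not at hA hB
  obtain ⟨l, hl, hXl, hln⟩ := hA
  obtain ⟨l', hl', hYl', hl'n⟩ := hB
  obtain ⟨g, hg, hgs⟩ := h1
  obtain ⟨s, rfl⟩ : ∃ s, t = s + 1 := ⟨t - 1, by omega⟩
  have hYl : Y l ∉ Wlt X Y e (s + 1) := fun h => hln (mem_of_XY hXY hXl h)
  have hXl' : X l' ∉ Wlt X Y e (s + 1) := fun h => hl'n (mem_of_XY hXY h hYl')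
  obtain ⟨c, hc⟩ := hgs (Y l) (Y_mem hXY hl)
  obtain ⟨c', hc'⟩ := hgs (X l') (X_mem hXY hl')
  have hc0 : c ≠ 0 := by
    rintro rfl
    exact hYl (by simpa using hc)
  have hc'0 : c' ≠ 0 := by
    rintro rfl
    exact hXl' (by simpa using hc')
  have hcomm : ∀ w : W, X (Y w) = Y (X w) := fun w => by
    have := congrArg (fun f : W →ₗ[κ] W => f w) hXY.eq
    exact this
  have hXg : X g ∈ Wlt X Y e s := by
    have h1 : X (Y l) ∈ Wlt X Y e s := by
      rw [hcomm]
      exact Y_mem hXY hXl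
    have h2 : X (Y l - c • g) ∈ Wlt X Y e s := X_mem hXY hc
    have h3 : X g = c⁻¹ • (X (Y l) - X (Y l - c • g)) := by
      rw [map_sub, map_smul, sub_sub_cancel, smul_smul, inv_mul_cancel₀ hc0, one_smul]
    rw [h3]
    exact Submodule.smul_mem _ _ (Submodule.sub_mem _ h1 h2)
  have hYg : Y g ∈ Wlt X Y e s := by
    have h1 : Y (X l') ∈ Wlt X Y e s := by
      rw [← hcomm]
      exact X_mem hXY hYl'
    have h2 : Y (X l' - c' • g) ∈ Wlt X Y e s := Y_mem hXY hc'
    have h3 : Y g = c'⁻¹ • (Y (X l') - Y (X l' - c' • g)) := by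
      rw [map_sub, map_smul, sub_sub_cancel, smul_smul, inv_mul_cancel₀ hc'0, one_smul]
    rw [h3]
    exact Submodule.smul_mem _ _ (Submodule.sub_mem _ h1 h2)
  have hgm : g ∈ Wlt X Y e (s + 1) := mem_of_XY hXY hXg hYg
  apply hYl
  have : Y l = (Y l - c • g) + c • g := by abel
  rw [this]
  exact Submodule.add_mem _ hc (Submodule.smul_mem _ _ hgm)

/-- dimension count at a level that is not one-dimensional -/
theorem two_le [FiniteDimensional κ W] {t : ℕ} (h : ¬ One X Y e t) :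
    Module.finrank κ (Wlt X Y e t) + 2 ≤ Module.finrank κ (Wlt X Y e (t + 1)) := by
  unfold One at h
  push Not at h
  -- first vector
  obtain ⟨g1, hg1, hg1n⟩ := h 0 (Submodule.zero_mem _)
  have hg1n' : g1 ∉ Wlt X Y e t := by simpa using hg1n 0
  obtain ⟨g2, hg2, hg2n⟩ := h g1 hg1
  set A := Wlt X Y e t ⊔ Submodule.span κ {g1} with hA
  have hA1 : Wlt X Y e t < A := by
    refine lt_of_le_of_ne le_sup_left fun h' => hg1n' ?_
    rw [h']
    exact Submodule.mem_sup_right (Submodule.mem_span_singleton_self _)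
  have hA2 : A < Wlt X Y e (t + 1) := by
    refine lt_of_le_of_ne (sup_le (Wlt_mono (by omega)) ?_) fun h' => ?_
    · rw [Submodule.span_singleton_le_iff_mem]; exact hg1
    · have hm : g2 ∈ A := by rw [h']; exact hg2
      rw [hA, Submodule.mem_sup] at hm
      obtain ⟨y, hy, z, hz, hyz⟩ := hm
      obtain ⟨c, rfl⟩ := Submodule.mem_span_singleton.1 hz
      apply hg2n c
      rw [← hyz, add_sub_cancel_right]
      exact hy
  have e1 := Submodule.finrank_lt_finrank_of_lt hA1
  have e2 := Submodule.finrank_lt_finrank_of_lt hA2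
  omega

/-- the standard element of level `t` -/
theorem exists_level (hXY : Commute X Y) {T : W} {D : ℕ}
    (hD : ∃ i j : ℕ, i + j = D ∧ e ((X ^ i * Y ^ j) T) ≠ 0)
    (hD' : ∀ i j : ℕ, D < i + j → e ((X ^ i * Y ^ j) T) = 0) {t : ℕ} (ht : t ≤ D) :
    ∃ i j : ℕ, i + j = D - t ∧ (X ^ i * Y ^ j) T ∈ Wlt X Y e (t + 1) ∧
      (X ^ i * Y ^ j) T ∉ Wlt X Y e t := by
  obtain ⟨i0, j0, h0, hne⟩ := hD
  obtain ⟨i, j, hi, hj, hij⟩ : ∃ i j, i ≤ i0 ∧ j ≤ j0 ∧ i + j = D - t := by
    rcases le_total i0 (D - t) with h | h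
    · exact ⟨i0, D - t - i0, le_rfl, by omega, by omega⟩
    · exact ⟨D - t, 0, h, by omega, by omega⟩
  refine ⟨i, j, hij, ?_, ?_⟩
  · exact mon_mem hXY (t := D + 1) (fun a b hab => hD' a b (by omega)) (by omega)
  · intro hm
    have := hm (i0 - i) (j0 - j) (by omega)
    rw [arr_mul hXY] at this
    have e1 : i0 - i + i = i0 := by omega
    have e2 : j0 - j + j = j0 := by omega
    rw [e1, e2] at this
    exact hne this

theorem lin_mem (hXY : Commute X Y) {t : ℕ} {w : W} (a b : κ) (hw : w ∈ Wlt X Y e (t + 1)) :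
    (a • X + b • Y) w ∈ Wlt X Y e t := by
  rw [LinearMap.add_apply, LinearMap.smul_apply, LinearMap.smul_apply]
  exact Submodule.add_mem _ (Submodule.smul_mem _ _ (X_mem hXY hw))
    (Submodule.smul_mem _ _ (Y_mem hXY hw))

theorem lin_pow_eq_zero (hXY : Commute X Y)
    (he : ∀ w : W, (∀ i j : ℕ, e ((X ^ i * Y ^ j) w) = 0) → w = 0) (a b : κ) :
    ∀ (t s : ℕ) (w : W), w ∈ Wlt X Y e t → t ≤ s → ((a • X + b • Y) ^ s) w = 0 := by
  intro t
  induction t with
  | zero =>
    intro s w hw _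
    have : w = 0 := he w fun i j => hw i j (Nat.zero_le _)
    rw [this, map_zero]
  | succ t ih =>
    intro s w hw hs
    obtain ⟨s', rfl⟩ : ∃ s', s = s' + 1 := ⟨s - 1, by omega⟩
    rw [pow_succ]
    exact ih s' _ (lin_mem hXY a b hw) (by omega)

end Abs

open Abs

/-- `W` a finite-dimensional space with commuting endomorphisms `X, Y` and a functional `e` such
that `w` is determined by the array `e (X^i Y^j w)`; `T` generates `W` under `X, Y`; the array of
`T` has total degree exactly `D`.  If `dim W ≤ 2n-1` and `n ≤ D` then `(w₁X+w₂Y)^n T = 0` for some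
`(w₁,w₂) ≠ 0`. -/
theorem abstract_core {κ : Type*} [Field κ] {W : Type*} [AddCommGroup W] [Module κ W]
    [FiniteDimensional κ W] (X Y : W →ₗ[κ] W) (hXY : Commute X Y) (e : W →ₗ[κ] κ)
    (he : ∀ w : W, (∀ i j : ℕ, e ((X ^ i * Y ^ j) w) = 0) → w = 0) (T : W) (D n : ℕ)
    (hcyc : Submodule.span κ (Set.range fun ij : ℕ × ℕ => (X ^ ij.1 * Y ^ ij.2) T) = ⊤)
    (hD : ∃ i j : ℕ, i + j = D ∧ e ((X ^ i * Y ^ j) T) ≠ 0)
    (hD' : ∀ i j : ℕ, D < i + j → e ((X ^ i * Y ^ j) T) = 0)
    (hn : 1 ≤ n) (hnD : n ≤ D) (hdim : Module.finrank κ W + 1 ≤ 2 * n) :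
    D + 1 ≤ Module.finrank κ W ∧
    ∃ w₁ w₂ : κ, (w₁, w₂) ≠ (0, 0) ∧ ((w₁ • X + w₂ • Y) ^ n) T = 0 := by
  have hT : T ∈ Wlt X Y e (D + 1) := fun i j hij => hD' i j (by omega)
  -- every graded piece up to `D` is nonzero
  have hstep : ∀ t, t ≤ D →
      Module.finrank κ (Wlt X Y e t) + 1 ≤ Module.finrank κ (Wlt X Y e (t + 1)) := by
    intro t ht
    obtain ⟨i, j, _, hm, hnm⟩ := exists_level hXY hD hD' ht
    have hlt : Wlt X Y e t < Wlt X Y e (t + 1) :=
      lt_of_le_of_ne (Wlt_mono (by omega)) fun h => hnm (h ▸ hm)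
    have := Submodule.finrank_lt_finrank_of_lt hlt
    omega
  have hge : ∀ s t, s ≤ t → t ≤ D + 1 →
      Module.finrank κ (Wlt X Y e s) + (t - s) ≤ Module.finrank κ (Wlt X Y e t) := by
    intro s t hst
    induction t, hst using Nat.le_induction with
    | base => intro _; omega
    | succ t hst ih =>
      intro ht
      have h1 := ih (by omega)
      have h2 := hstep t (by omega)
      omega
  have hN : D + 1 ≤ Module.finrank κ W := by
    have h1 := hge 0 (D + 1) (by omega) le_rfl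
    have h2 := Submodule.finrank_le (Wlt X Y e (D + 1))
    omega
  refine ⟨hN, ?_⟩
  -- pieces beyond level `N - D` are one-dimensional
  have hone : ∀ t, 1 ≤ t → t ≤ D → Module.finrank κ W < D + 1 + t → One X Y e t := by
    intro t ht htD htN
    by_contra hno
    -- going down
    have hdown : ∀ s, 1 ≤ s → s ≤ t → ¬ One X Y e s := by
      intro s hs hst hos
      have : ∀ r, s ≤ r → One X Y e r := by
        intro r hr
        induction r, hr using Nat.le_induction with
        | base => exact hos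
        | succ r hr ih => exact one_succ hXY (by omega) ih
      exact hno (this t hst)
    have h2 : ∀ s, s ≤ t → 2 * s + 1 ≤ Module.finrank κ (Wlt X Y e (s + 1)) := by
      intro s
      induction s with
      | zero =>
        intro _
        have := hstep 0 (by omega)
        omega
      | succ s ih =>
        intro hs
        have h3 := ih (by omega)
        have h4 := two_le (hdown (s + 1) (by omega) hs)
        omega
    have h3 := h2 t le_rfl
    have h4 := hge (t + 1) (D + 1) (by omega) le_rfl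
    have h5 := Submodule.finrank_le (Wlt X Y e (D + 1))
    omega
  -- `D ≥ 2`
  have hD2 : 2 ≤ D := by omega
  obtain ⟨g, hg, hgs⟩ := hone (D - 1) (by omega) (by omega) (by omega)
  have hDD : D - 1 + 1 = D := by omega
  rw [hDD] at hg hgs
  obtain ⟨α, hα⟩ := hgs (X T) (X_mem hXY hT)
  obtain ⟨β, hβ⟩ := hgs (Y T) (Y_mem hXY hT)
  have hTn : T ∉ Wlt X Y e D := by
    obtain ⟨i0, j0, h0, hne⟩ := hD
    intro h
    exact hne (h i0 j0 (by omega))
  have hαβ : (β, -α) ≠ ((0 : κ), (0 : κ)) := by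
    intro h
    rw [Prod.mk.injEq, neg_eq_zero] at h
    obtain ⟨h1, h2⟩ := h
    rw [h2, zero_smul, sub_zero] at hα
    rw [h1, zero_smul, sub_zero] at hβ
    apply hTn
    have := mem_of_XY hXY hα hβ
    rwa [hDD] at this
  refine ⟨β, -α, hαβ, ?_⟩
  set Z : W →ₗ[κ] W := β • X + (-α) • Y with hZ
  have hZT : Z T ∈ Wlt X Y e (D - 1) := by
    have : Z T = β • (X T - α • g) - α • (Y T - β • g) := by
      rw [hZ, LinearMap.add_apply, LinearMap.smul_apply, LinearMap.smul_apply, smul_sub, smul_sub,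
        smul_smul, smul_smul, mul_comm β α, neg_smul]
      abel
    rw [this]
    exact Submodule.sub_mem _ (Submodule.smul_mem _ _ hα) (Submodule.smul_mem _ _ hβ)
  have hZX : Commute Z X := by
    rw [hZ]
    exact ((Commute.refl X).smul_left _).add_left (hXY.symm.smul_left _)
  have hZY : Commute Z Y := by
    rw [hZ]
    exact (hXY.smul_left _).add_left ((Commute.refl Y).smul_left _)
  -- the double drop
  have hdrop : ∀ t, 1 ≤ t → t ≤ D → Module.finrank κ W < D + 1 + t →
      ∀ q ∈ Wlt X Y e (t + 1), Z q ∈ Wlt X Y e (t - 1) := by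
    intro t ht htD htN q hq
    obtain ⟨i, j, hij, hu, hun⟩ := exists_level hXY hD hD' htD
    obtain ⟨g, hg, hgs⟩ := hone t ht htD htN
    set u := (X ^ i * Y ^ j) T with hudef
    obtain ⟨c0, hc0⟩ := hgs u hu
    obtain ⟨c, hc⟩ := hgs q hq
    have hc00 : c0 ≠ 0 := by
      rintro rfl
      exact hun (by simpa using hc0)
    have hr : q - (c / c0) • u ∈ Wlt X Y e t := by
      have : q - (c / c0) • u = (q - c • g) - (c / c0) • (u - c0 • g) := by
        rw [smul_sub, smul_smul, div_mul_cancel₀ _ hc00]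
        abel
      rw [this]
      exact Submodule.sub_mem _ hc (Submodule.smul_mem _ _ hc0)
    have hZu : Z u ∈ Wlt X Y e (t - 1) := by
      have hcomm : Commute Z (X ^ i * Y ^ j) := (hZX.pow_right i).mul_right (hZY.pow_right j)
      have h1 : Z u = (X ^ i * Y ^ j) (Z T) := by
        have := congrArg (fun f : W →ₗ[κ] W => f T) hcomm.eq
        exact this
      rw [h1]
      exact mon_mem hXY hZT (by omega)
    have hZr : Z (q - (c / c0) • u) ∈ Wlt X Y e (t - 1) := by
      refine lin_mem hXY _ _ ?_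
      have h1 : t - 1 + 1 = t := by omega
      rw [h1]
      exact hr
    have : Z q = Z (q - (c / c0) • u) + (c / c0) • Z u := by
      rw [map_sub, map_smul]
      abel
    rw [this]
    exact Submodule.add_mem _ hZr (Submodule.smul_mem _ _ hZu)
  -- final count
  have hfin : ∀ t s : ℕ, t ≤ D + 1 → t + (Module.finrank κ W - D) ≤ 2 * s →
      ∀ q ∈ Wlt X Y e t, (Z ^ s) q = 0 := by
    intro t
    induction t using Nat.strong_induction_on with
    | _ t ih =>
      intro s htD hts q hq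
      rcases le_or_gt t (Module.finrank κ W - D) with h | h
      · exact lin_pow_eq_zero hXY he _ _ t s q hq (by omega)
      · obtain ⟨s', rfl⟩ : ∃ s', s = s' + 1 := ⟨s - 1, by omega⟩
        obtain ⟨t', rfl⟩ : ∃ t', t = t' + 2 := ⟨t - 2, by omega⟩
        rw [pow_succ]
        refine ih t' (by omega) s' (by omega) (by omega) _ ?_
        exact hdrop (t' + 1) (by omega) (by omega) (by omega) q hq
  exact hfin (D + 1) n le_rfl (by omega) T hT

end Pool.Agent.Lib.MP_d0f9e0_co.WHFin
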