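import Pool.Agent.Lib.MP_d0f9e0_co.Fin.Cheb

/-!
# Chebotarev's uncertainty principle for `ZMod p` over fields of characteristic zero
-/

set_option autoImplicit false

namespace Pool.Agent.Lib.MP_d0f9e0_co.WHFin

open Finset Classical

variable {p : ℕ} [Fact p.Prime] {k : Type*} [Field k] [CharZero k]

lemma cheb_char_eq {k : Type*} [Field k] (χ : AddChar (ZMod p) k) (x : ZMod p) :
    χ x = χ 1 ^ x.val := by
  rw [← AddChar.map_nsmul_eq_pow]
  congr 1
  simp

lemma cheb_primitive {k : Type*} [Field k] (χ : AddChar (ZMod p) k) (hχ : χ ≠ 1) :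
    IsPrimitiveRoot (χ 1) p := by
  have hp : p.Prime := Fact.out
  have h1 : χ 1 ^ p = 1 := by
    rw [← AddChar.map_nsmul_eq_pow]
    simp
  have h2 : χ 1 ≠ 1 := by
    intro h
    apply hχ
    ext x
    rw [cheb_char_eq χ x, h]
    simp
  have h3 := orderOf_eq_prime h1 h2
  have h4 := IsPrimitiveRoot.orderOf (χ 1)
  rwa [h3] at h4

/-- `|supp c| + |supp c^| ≥ p + 1` for `c ≠ 0` -/
theorem cheb (χ : AddChar (ZMod p) k) (hχ : χ ≠ 1) (c : ZMod p → k) (hc : c ≠ 0) :
    p + 1 ≤ (univ.filter fun x => c x ≠ 0).card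
      + (univ.filter fun b => ∑ x, c x * χ (b * x) ≠ 0).card := by
  have h := Pool.Agent.Lib.MP_d0f9e0_co.SicFin.cheb (cheb_primitive χ hχ) hc
  have h2 : ∀ b, Pool.Agent.Lib.MP_d0f9e0_co.SicFin.dft (χ 1) c b = ∑ x, c x * χ (b * x) := by
    intro b
    unfold Pool.Agent.Lib.MP_d0f9e0_co.SicFin.dft
    exact Finset.sum_congr rfl fun x _ => by rw [cheb_char_eq χ (b * x)]
  simp only [h2] at h
  exact h

/-- if `c, c'` are nonzero and `ĉ(b) ĉ'(-b) = 0` for all `b` then `|supp c| + |supp c'| ≥ p + 2` -/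
theorem cheb_pair (χ : AddChar (ZMod p) k) (hχ : χ ≠ 1) (c c' : ZMod p → k) (hc : c ≠ 0)
    (hc' : c' ≠ 0) (h : ∀ b, (∑ x, c x * χ (b * x)) * (∑ x, c' x * χ (-b * x)) = 0) :
    p + 2 ≤ (univ.filter fun x => c x ≠ 0).card + (univ.filter fun x => c' x ≠ 0).card := by
  have h1 := cheb χ hχ c hc
  have h2 := cheb χ hχ c' hc'
  set A := univ.filter fun b => ∑ x, c x * χ (b * x) ≠ 0 with hA
  set B := univ.filter fun b => ∑ x, c' x * χ (b * x) ≠ 0 with hB
  have h3 : Disjoint A (B.image fun b => -b) := by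
    rw [Finset.disjoint_left]
    intro b hb hb'
    obtain ⟨b', hb2, rfl⟩ := Finset.mem_image.mp hb'
    rw [hA, Finset.mem_filter] at hb
    rw [hB, Finset.mem_filter] at hb2
    rcases mul_eq_zero.mp (h (-b')) with h4 | h4
    · exact hb.2 h4
    · rw [neg_neg] at h4
      exact hb2.2 h4
  have h4 : (B.image fun b => -b).card = B.card :=
    Finset.card_image_of_injective _ neg_injective
  have h5 := Finset.card_union_of_disjoint h3
  have h6 : (A ∪ B.image fun b => -b).card ≤ p := by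
    have := Finset.card_le_univ (A ∪ B.image fun b => -b)
    rwa [ZMod.card] at this
  omega

end Pool.Agent.Lib.MP_d0f9e0_co.WHFin
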