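import Pool.Agent.Lib.MP_d0f9e0_co.WHFin.Defs

/-!
# Existence of valuation subrings
-/

set_option autoImplicit false

namespace Pool.Agent.Lib.MP_d0f9e0_co.WHFin

variable {K : Type*} [Field K] [CharZero K]

/-- there is a valuation subring of residue characteristic `p` -/
theorem exists_val_p (p : ℕ) [Fact p.Prime] :
    ∃ V : ValuationSubring K, V.valuation (p : K) < 1 := by
  sorry

/-- a transcendental element is a pole of some valuation subring containing the rationals -/
theorem exists_val_trans (z : K) (hz : ¬ IsAlgebraic ℚ z) :
    ∃ V : ValuationSubring K, (∀ q : ℚ, (q : K) ∈ V) ∧ 1 < V.valuation z := by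
  sorry

end Pool.Agent.Lib.MP_d0f9e0_co.WHFin
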