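import Pool.Agent.Lib.MP_d0f9e0_co.WHFin.Defs
import Pool.Agent.Lib.MP_d0f9e0_co.Fin.Cheb

/-!
# Residues with respect to a valuation subring
-/

set_option autoImplicit false

namespace Pool.Agent.Lib.MP_d0f9e0_co.WHFin

open IsLocalRing

variable {K : Type*} [Field K] (V : ValuationSubring K)

theorem rs_of_mem {z : K} (h : z ∈ V) : rs V z = residue V ⟨z, h⟩ := by
  unfold rs
  rw [dif_pos h]

theorem rs_zero : rs V (0 : K) = 0 := by
  rw [rs_of_mem V V.zero_mem]
  exact map_zero _

theorem rs_one : rs V (1 : K) = 1 := by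
  rw [rs_of_mem V V.one_mem]
  exact map_one _

theorem rs_natCast (n : ℕ) : rs V (n : K) = n := by
  have h : (n : K) ∈ V := natCast_mem V n
  rw [rs_of_mem V h]
  have : (⟨(n : K), h⟩ : V) = (n : V) := by
    apply Subtype.ext
    simp
  rw [this, map_natCast]

theorem rs_add {z w : K} (hz : V.valuation z ≤ 1) (hw : V.valuation w ≤ 1) :
    rs V (z + w) = rs V z + rs V w := by
  rw [ValuationSubring.valuation_le_one_iff] at hz hw
  rw [rs_of_mem V hz, rs_of_mem V hw, rs_of_mem V (V.add_mem _ _ hz hw), ← map_add]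
  rfl

theorem rs_neg {z : K} (hz : V.valuation z ≤ 1) : rs V (-z) = -rs V z := by
  rw [ValuationSubring.valuation_le_one_iff] at hz
  rw [rs_of_mem V hz, rs_of_mem V (V.neg_mem _ hz), ← map_neg]
  rfl

theorem rs_mul {z w : K} (hz : V.valuation z ≤ 1) (hw : V.valuation w ≤ 1) :
    rs V (z * w) = rs V z * rs V w := by
  rw [ValuationSubring.valuation_le_one_iff] at hz hw
  rw [rs_of_mem V hz, rs_of_mem V hw, rs_of_mem V (V.mul_mem _ _ hz hw), ← map_mul]
  rfl

theorem rs_pow {z : K} (hz : V.valuation z ≤ 1) (n : ℕ) : rs V (z ^ n) = rs V z ^ n := by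
  induction n with
  | zero => rw [pow_zero, pow_zero, rs_one]
  | succ n ih =>
    rw [pow_succ, pow_succ, rs_mul V _ hz, ih]
    rw [map_pow]
    exact pow_le_one₀ zero_le hz

theorem val_sum_le {ι : Type*} (s : Finset ι) (f : ι → K) (γ : V.ValueGroup)
    (h : ∀ i ∈ s, V.valuation (f i) ≤ γ) : V.valuation (∑ i ∈ s, f i) ≤ γ :=
  Valuation.map_sum_le V.valuation h

theorem rs_sum {ι : Type*} (s : Finset ι) (f : ι → K) (h : ∀ i ∈ s, V.valuation (f i) ≤ 1) :
    rs V (∑ i ∈ s, f i) = ∑ i ∈ s, rs V (f i) := by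
  classical
  induction s using Finset.induction_on with
  | empty => simp [rs_zero]
  | insert a s ha ih =>
    rw [Finset.sum_insert ha, Finset.sum_insert ha, rs_add V, ih]
    · exact fun i hi => h i (Finset.mem_insert_of_mem hi)
    · exact h a (Finset.mem_insert_self a s)
    · exact val_sum_le V s f 1 fun i hi => h i (Finset.mem_insert_of_mem hi)

theorem rs_eq_zero_iff {z : K} (hz : V.valuation z ≤ 1) : rs V z = 0 ↔ V.valuation z < 1 := by
  have hz' := hz
  rw [ValuationSubring.valuation_le_one_iff] at hz'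
  rw [rs_of_mem V hz', residue_eq_zero_iff, ValuationSubring.valuation_lt_one_iff]

theorem rs_ne_zero {z : K} (hz : V.valuation z = 1) : rs V z ≠ 0 := by
  rw [Ne, rs_eq_zero_iff V hz.le, hz]
  exact lt_irrefl _

theorem exists_max {ι : Type*} [Finite ι] (c : ι → K) (hc : ∃ i, c i ≠ 0) :
    ∃ i₀, c i₀ ≠ 0 ∧ ∀ i, V.valuation (c i) ≤ V.valuation (c i₀) := by
  obtain ⟨i₁, hi₁⟩ := hc
  have : Nonempty ι := ⟨i₁⟩
  obtain ⟨i₀, hi₀⟩ := Finite.exists_max fun i => V.valuation (c i)
  refine ⟨i₀, ?_, hi₀⟩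
  intro h0
  have h1 := hi₀ i₁
  rw [h0, map_zero] at h1
  have h2 := le_antisymm h1 zero_le
  rw [map_eq_zero] at h2
  exact hi₁ h2

theorem charP_residue {p : ℕ} [Fact p.Prime] (h : V.valuation (p : K) < 1) :
    CharP (ResidueField V) p := by
  rw [CharP.charP_iff_prime_eq_zero (Fact.out : p.Prime), ← rs_natCast V p,
    rs_eq_zero_iff V h.le]
  exact h

theorem charZero_residue (h : ∀ n : ℕ, n ≠ 0 → V.valuation (n : K) = 1) :
    CharZero (ResidueField V) := by
  have hne : ∀ n : ℕ, n ≠ 0 → (n : ResidueField V) ≠ 0 := by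
    intro n hn
    rw [← rs_natCast V n]
    exact rs_ne_zero V (h n hn)
  refine ⟨fun a b hab => ?_⟩
  by_contra hne'
  rcases lt_or_gt_of_ne hne' with h1 | h1
  · apply hne (b - a) (by omega)
    have hab' : (a : ResidueField V) = (b : ResidueField V) := hab
    rw [Nat.cast_sub h1.le, hab', sub_self]
  · apply hne (a - b) (by omega)
    have hab' : (a : ResidueField V) = (b : ResidueField V) := hab
    rw [Nat.cast_sub h1.le, hab', sub_self]

/-- if `V` contains the rationals then all nonzero naturals are units -/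
theorem val_nat_of_rat [CharZero K] (h : ∀ q : ℚ, (q : K) ∈ V) (n : ℕ) (hn : n ≠ 0) :
    V.valuation (n : K) = 1 := by
  have h1 : V.valuation (n : K) ≤ 1 := by
    rw [ValuationSubring.valuation_le_one_iff]; exact natCast_mem V n
  have h2 : V.valuation ((n : K)⁻¹) ≤ 1 := by
    rw [ValuationSubring.valuation_le_one_iff]
    have := h ((n : ℚ)⁻¹)
    rw [Rat.cast_inv, Rat.cast_natCast] at this
    exact this
  have hnK : (n : K) ≠ 0 := Nat.cast_ne_zero.mpr hn
  refine le_antisymm h1 ?_
  calc (1 : V.ValueGroup) = V.valuation (n : K) * V.valuation ((n : K)⁻¹) := by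
        rw [← map_mul, mul_inv_cancel₀ hnK, map_one]
    _ ≤ V.valuation (n : K) * 1 := mul_le_mul_right h2 _
    _ = V.valuation (n : K) := mul_one _

section char

variable {p : ℕ} [Fact p.Prime] (χ : AddChar (ZMod p) K)

theorem val_char (b : ZMod p) : V.valuation (χ b) = 1 := by
  have h1 : χ b ^ p = 1 := by
    rw [← AddChar.map_nsmul_eq_pow]
    simp
  exact Pool.Agent.Lib.MP_d0f9e0_co.SicFin.val_zeta V (Fact.out : p.Prime).ne_zero h1

/-- the reduction of an additive character -/
theorem exists_rsChar : ∃ χ' : AddChar (ZMod p) (ResidueField V), ∀ b, χ' b = rs V (χ b) := by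
  refine ⟨⟨fun b => rs V (χ b), ?_, ?_⟩, fun b => rfl⟩
  · rw [AddChar.map_zero_eq_one, rs_one]
  · intro a b
    rw [AddChar.map_add_eq_mul, rs_mul V (val_char V χ a).le (val_char V χ b).le]

/-- in residue characteristic `≠ p` nontriviality is preserved -/
theorem rsChar_ne_one (hV : V.valuation (p : K) = 1) (hχ : χ ≠ 1)
    (χ' : AddChar (ZMod p) (ResidueField V)) (h : ∀ b, χ' b = rs V (χ b)) : χ' ≠ 1 := by
  intro h1
  have h2 : ∑ b, χ b = 0 := AddChar.sum_eq_zero_of_ne_one hχ
  have h3 : ∑ b, rs V (χ b) = 0 := by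
    rw [← rs_sum V Finset.univ _ fun b _ => (val_char V χ b).le, h2, rs_zero]
  have h4 : ∀ b, rs V (χ b) = 1 := by
    intro b
    rw [← h b, h1]
    rfl
  simp only [h4, Finset.sum_const, Finset.card_univ, ZMod.card, nsmul_eq_mul, mul_one] at h3
  rw [← rs_natCast V p] at h3
  exact rs_ne_zero V hV h3

/-- in residue characteristic `p` all characters become trivial -/
theorem rs_char_eq_one (hV : V.valuation (p : K) < 1) (b : ZMod p) : rs V (χ b) = 1 := by
  have hp : p.Prime := Fact.out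
  have := charP_residue V hV
  have h1 : χ b ^ p = 1 := by
    rw [← AddChar.map_nsmul_eq_pow]
    simp
  have h2 : rs V (χ b) ^ p = 1 := by
    rw [← rs_pow V (val_char V χ b).le, h1, rs_one]
  have h3 : (rs V (χ b) - 1) ^ p = 0 := by
    rw [sub_pow_char, h2, one_pow, sub_self]
  exact sub_eq_zero.mp ((pow_eq_zero_iff hp.ne_zero).mp h3)

end char

end Pool.Agent.Lib.MP_d0f9e0_co.WHFin
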