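import Pool.Agent.Lib.MP_d0f9e0_co.WHFin.Core
import Pool.Agent.Lib.MP_d0f9e0_co.WHFin.Res
import Pool.Agent.Lib.MP_d0f9e0_co.WHFin.ExVal

/-!
# Classification of the leading term
-/

set_option autoImplicit false

namespace Pool.Agent.Lib.MP_d0f9e0_co.WHFin

open Finset Classical

variable {p : ℕ} [Fact p.Prime] {k : Type*} [Field k] [CharZero k]

/-- If `F = f gᵀ ≠ 0` satisfies `F_q F_{-q} = 0` for all `q` then `F` is nonzero on a whole affine
line of `F_p²`. -/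
theorem classify (hp : p ≠ 2) (χ : AddChar (ZMod p) k) (f g : ZMod p → k)
    (hF : ∃ a b, ov χ f g a b ≠ 0)
    (h : ∀ a b, ov χ f g a b * ov χ f g (-a) (-b) = 0) :
    ∃ v : ZMod p × ZMod p, v ≠ 0 ∧ ∃ q : ZMod p × ZMod p,
      ∀ s : ZMod p, ov χ f g (q.1 + s * v.1) (q.2 + s * v.2) ≠ 0 := by
  sorry

end Pool.Agent.Lib.MP_d0f9e0_co.WHFin
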