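import Pool.Agent.Lib.MP_d0f9e0_co.WHFin.Der

/-!
# The irrational case of the core lemma (root counting)
-/

set_option autoImplicit false

namespace Pool.Agent.Lib.MP_d0f9e0_co.WHFin

open Finset Classical

variable {p : ℕ} [Fact p.Prime] {κ : Type*} [Field κ] [CharP κ p]

theorem coreIrr_emb_pow (a : ZMod p) : emb κ a ^ p = emb κ a := by
  rw [← map_pow, ZMod.pow_card]

theorem coreIrr_exists_emb (x : κ) (hx : x ^ p = x) : ∃ a : ZMod p, emb κ a = x := by
  by_contra hne
  push Not at hne
  have hp1 : 1 < p := (Fact.out : p.Prime).one_lt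
  have hdeg : (Polynomial.X ^ p - Polynomial.X : Polynomial κ).natDegree = p :=
    FiniteField.X_pow_card_sub_X_natDegree_eq κ hp1
  have h0 : (Polynomial.X ^ p - Polynomial.X : Polynomial κ) ≠ 0 := by
    intro h
    rw [h, Polynomial.natDegree_zero] at hdeg
    omega
  set S : Finset κ := insert x (univ.image (emb (p := p) κ)) with hS
  have hcard : S.card = p + 1 := by
    rw [hS, Finset.card_insert_of_notMem, Finset.card_image_of_injective _ (emb κ).injective]
    · rw [Finset.card_univ, ZMod.card]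
    · intro h
      rw [Finset.mem_image] at h
      obtain ⟨a, -, ha⟩ := h
      exact hne a ha
  have hsub : S.val ≤ (Polynomial.X ^ p - Polynomial.X : Polynomial κ).roots := by
    rw [Multiset.le_iff_subset S.nodup]
    intro y hy
    rw [Polynomial.mem_roots h0, Polynomial.IsRoot.def, Polynomial.eval_sub, Polynomial.eval_pow,
      Polynomial.eval_X, sub_eq_zero]
    have hy' : y ∈ S := hy
    rw [hS, Finset.mem_insert, Finset.mem_image] at hy'
    rcases hy' with rfl | ⟨a, -, rfl⟩
    · exact hx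
    · exact coreIrr_emb_pow a
  have h1 := Multiset.card_le_card hsub
  have h2 := Polynomial.card_roots' (Polynomial.X ^ p - Polynomial.X : Polynomial κ)
  have h3 : S.val.card = S.card := rfl
  omega

theorem coreIrr_delta_ne (w₁ w₂ : κ)
    (hirr : ∀ v : ZMod p × ZMod p, emb κ v.1 * w₂ = emb κ v.2 * w₁ → v = 0) :
    w₁ * w₂ ^ p - w₂ * w₁ ^ p ≠ 0 := by
  intro h
  have h2 : w₂ ≠ 0 := by
    intro h2
    have := hirr (1, 0) (by simp [h2])
    simpa using congrArg Prod.fst this
  have h1 : w₁ ≠ 0 := by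
    intro h1
    have := hirr (0, 1) (by simp [h1])
    simpa using congrArg Prod.snd this
  have h3 : (w₁ / w₂) ^ p = w₁ / w₂ := by
    rw [div_pow, div_eq_div_iff (pow_ne_zero _ h2) h2]
    linear_combination -h
  obtain ⟨a, ha⟩ := coreIrr_exists_emb (p := p) _ h3
  have h4 := hirr (a, 1) (by
    simp only [map_one, one_mul]
    rw [ha, div_mul_cancel₀ _ h2])
  simpa using congrArg Prod.snd h4

omit [CharP κ p] in
/-- at least half of the points are zeros -/
theorem coreIrr_card_zeros (T : ZMod p × ZMod p → κ) (hTT : ∀ q, T q * T (-q) = 0) :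
    p ^ 2 + 1 ≤ 2 * (univ.filter fun q => T q = 0).card := by
  have h0 : T 0 = 0 := by
    have := hTT 0
    rw [neg_zero] at this
    exact mul_self_eq_zero.1 this
  have h1 : (univ.filter fun q => ¬ T q = 0).card ≤
      ((univ.filter fun q => T q = 0).erase 0).card := by
    refine Finset.card_le_card_of_injOn (fun q => -q) ?_ neg_injective.injOn
    intro q hq
    simp only [Finset.coe_filter, Finset.mem_univ, true_and, Set.mem_ofPred_eq] at hq
    simp only [Finset.coe_erase, Finset.coe_filter, Finset.mem_univ, true_and, Set.mem_sdiff,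
      Set.mem_ofPred_eq, Set.mem_singleton_iff]
    refine ⟨(mul_eq_zero.1 (hTT q)).resolve_left hq, ?_⟩
    intro h
    rw [neg_eq_zero] at h
    rw [h] at hq
    exact hq h0
  have h2 := Finset.card_filter_add_card_filter_not (s := (univ : Finset (ZMod p × ZMod p)))
    (fun q => T q = 0)
  have h3 : ((univ.filter fun q => T q = 0).erase 0).card + 1 =
      (univ.filter fun q => T q = 0).card := by
    apply Finset.card_erase_add_one
    simp [h0]
  have h4 : (univ : Finset (ZMod p × ZMod p)).card = p ^ 2 := by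
    rw [Finset.card_univ, Fintype.card_prod, ZMod.card, sq]
  omega

theorem core_irr (hp : p ≠ 2) (T : ZMod p × ZMod p → κ) (hT0 : T ≠ 0)
    (hTT : ∀ q, T q * T (-q) = 0)
    (hT : ∀ i j, p ≤ i + j → (dv (κ := κ) (1, 0) ^ i * dv (κ := κ) (0, 1) ^ j) T = 0)
    (n : ℕ) (hn : 2 * n = p + 1) (w₁ w₂ : κ)
    (hw : ((w₁ • dv (κ := κ) (1, 0) + w₂ • dv (κ := κ) (0, 1)) ^ n) T = 0)
    (hirr : ∀ v : ZMod p × ZMod p, emb κ v.1 * w₂ = emb κ v.2 * w₁ → v = 0) : False := by
  set X := dv (κ := κ) ((1, 0) : ZMod p × ZMod p) with hX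
  set Y := dv (κ := κ) ((0, 1) : ZMod p × ZMod p) with hY
  have hXY : Commute X Y := dv_comm _ _
  set Δ := w₁ * w₂ ^ p - w₂ * w₁ ^ p with hΔ
  have hΔ0 : Δ ≠ 0 := coreIrr_delta_ne w₁ w₂ hirr
  set W := w₁ • X + w₂ • Y with hW
  set W' := w₁ ^ p • X + w₂ ^ p • Y with hW'
  have hWW' : Commute W W' := by
    rw [hW, hW']
    refine Commute.add_left (Commute.add_right ?_ ?_) (Commute.add_right ?_ ?_)
    · exact ((Commute.refl X).smul_left _).smul_right _
    · exact (hXY.smul_left _).smul_right _
    · exact (hXY.symm.smul_left _).smul_right _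
    · exact ((Commute.refl Y).smul_left _).smul_right _
  -- the linear form
  set β : ZMod p × ZMod p → κ := fun q => emb κ q.1 * w₂ - emb κ q.2 * w₁ with hβ
  have hβinj : Function.Injective β := by
    intro q r hqr
    have h := hirr (q - r) (by
      have : emb κ q.1 * w₂ - emb κ q.2 * w₁ = emb κ r.1 * w₂ - emb κ r.2 * w₁ := hqr
      simp only [Prod.fst_sub, Prod.snd_sub, map_sub]
      linear_combination this)
    exact sub_eq_zero.1 h
  have hβp : ∀ q, β q ^ p = emb κ q.1 * w₂ ^ p - emb κ q.2 * w₁ ^ p := by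
    intro q
    rw [hβ]
    simp only
    rw [sub_pow_char, mul_pow, mul_pow, coreIrr_emb_pow, coreIrr_emb_pow]
  have hdec : ∀ q : ZMod p × ZMod p, emb κ q.1 • X + emb κ q.2 • Y =
      (β q ^ p / Δ) • W + (-β q / Δ) • W' := by
    intro q
    have e1 : emb κ q.1 = β q ^ p / Δ * w₁ + -β q / Δ * w₁ ^ p := by
      rw [hβp]
      field_simp
      rw [hβ, hΔ]
      ring
    have e2 : emb κ q.2 = β q ^ p / Δ * w₂ + -β q / Δ * w₂ ^ p := by
      rw [hβp]
      field_simp
      rw [hβ, hΔ]
      ring
    rw [hW, hW', smul_add, smul_add, smul_smul, smul_smul, smul_smul, smul_smul]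
    conv_lhs => rw [e1, e2]
    rw [add_smul, add_smul]
    abel
  -- coefficients
  set c : ℕ → ℕ → κ := fun m i => ((m.factorial : κ))⁻¹ * (m.choose i : κ)
    * ((1 / Δ) ^ i * (-1 / Δ) ^ (m - i)) * ((W ^ i * W' ^ (m - i)) T) 0 with hc
  have hc0 : ∀ m i, n ≤ i → c m i = 0 := by
    intro m i hi
    have : (W ^ i * W' ^ (m - i)) T = 0 := by
      have h1 : W ^ i * W' ^ (m - i) = W' ^ (m - i) * W ^ (i - n) * W ^ n := by
        rw [mul_assoc, ← pow_add, Nat.sub_add_cancel hi]
        exact (hWW'.pow_pow _ _).eq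
      rw [h1, Module.End.mul_apply, hw, map_zero]
    rw [hc]
    simp only [this, Pi.zero_apply, mul_zero]
  set Θ : Polynomial κ := ∑ m ∈ range p, ∑ i ∈ range (m + 1),
    Polynomial.monomial (p * i + (m - i)) (c m i) with hΘ
  have hp1 : 1 < p := (Fact.out : p.Prime).one_lt
  have hdeg : Θ.natDegree ≤ (p - 1) * n := by
    rw [hΘ]
    refine Polynomial.natDegree_sum_le_of_forall_le _ _ fun m hm => ?_
    refine Polynomial.natDegree_sum_le_of_forall_le _ _ fun i hi => ?_
    rw [Finset.mem_range] at hm hi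
    by_cases h : n ≤ i
    · rw [hc0 m i h]
      simp
    · push Not at h
      refine (Polynomial.natDegree_monomial_le _).trans ?_
      obtain ⟨r, rfl⟩ : ∃ r, p = r + 1 := ⟨p - 1, by omega⟩
      have h1 : (r + 1) * i + (m - i) = r * i + m := by
        rw [add_mul, one_mul, add_assoc, Nat.add_sub_cancel' (by omega)]
      rw [h1, Nat.add_sub_cancel]
      have h2 : r * (i + 1) ≤ r * n := Nat.mul_le_mul_left _ h
      rw [mul_add, mul_one] at h2
      omega
  have heval : ∀ q, Θ.eval (β q) = T q := by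
    intro q
    have h1 := taylor_total hp T hT 0 q
    rw [zero_add] at h1
    rw [h1, hΘ, Polynomial.eval_finsetSum]
    refine Finset.sum_congr rfl fun m _ => ?_
    rw [Polynomial.eval_finsetSum, hdec q,
      (((hWW'.smul_left (β q ^ p / Δ)).smul_right (-β q / Δ)).add_pow m),
      LinearMap.sum_apply, Finset.sum_apply, Finset.mul_sum]
    refine Finset.sum_congr rfl fun i hi => ?_
    rw [Polynomial.eval_monomial, hc]
    simp only
    have e1 : (((β q ^ p / Δ) • W) ^ i * ((-β q / Δ) • W') ^ (m - i)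
        * ((m.choose i : ℕ) : Module.End κ (ZMod p × ZMod p → κ))) T =
        ((m.choose i : κ) * ((β q ^ p / Δ) ^ i * (-β q / Δ) ^ (m - i))) •
          ((W ^ i * W' ^ (m - i)) T) := by
      rw [Module.End.mul_apply, Module.End.natCast_apply, map_nsmul, smul_pow, smul_pow,
        smul_mul_smul_comm, LinearMap.smul_apply, ← Nat.cast_smul_eq_nsmul κ, smul_smul]
    have e2 := congrFun e1 0
    rw [Pi.smul_apply, smul_eq_mul] at e2
    refine Eq.trans ?_ (congrArg (fun z => ((m.factorial : κ))⁻¹ * z) e2.symm)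
    rw [div_pow, div_pow, div_pow, div_pow, one_pow, pow_add, pow_mul, neg_pow (β q),
      neg_one_pow_eq_pow_mod_two]
    ring
  have h2 := coreIrr_card_zeros T hTT
  by_cases hΘ0 : Θ = 0
  · apply hT0
    funext q
    rw [← heval q, hΘ0, Polynomial.eval_zero, Pi.zero_apply]
  · have h3 : ((univ.filter fun q => T q = 0).image β).val ≤ Θ.roots := by
      rw [Multiset.le_iff_subset (Finset.nodup _)]
      intro y hy
      rw [Polynomial.mem_roots hΘ0, Polynomial.IsRoot.def]
      have hy' : y ∈ (univ.filter fun q => T q = 0).image β := hy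
      rw [Finset.mem_image] at hy'
      obtain ⟨q, hq, rfl⟩ := hy'
      rw [heval q]
      exact (Finset.mem_filter.1 hq).2
    have h4 := Multiset.card_le_card h3
    have h5 : ((univ.filter fun q => T q = 0).image β).val.card =
        (univ.filter fun q => T q = 0).card := Finset.card_image_of_injective _ hβinj
    have h6 := Polynomial.card_roots' Θ
    have h7 : 2 * ((p - 1) * n) + 1 = p ^ 2 := by
      obtain ⟨r, rfl⟩ : ∃ r, p = r + 1 := ⟨p - 1, by omega⟩
      rw [Nat.add_sub_cancel]
      have : 2 * (r * n) = r * (2 * n) := by ring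
      rw [this, hn]
      ring
    omega

end Pool.Agent.Lib.MP_d0f9e0_co.WHFin
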