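import Pool.Agent.Lib.MP_d0f9e0_co.WHFin.Der

/-!
# The rational case of the core lemma
-/

set_option autoImplicit false

namespace Pool.Agent.Lib.MP_d0f9e0_co.WHFin

open Finset Classical

variable {p : ℕ} [Fact p.Prime] {κ : Type*} [Field κ] [CharP κ p]

/-- a polynomial of degree `< n` given by its coefficients -/
theorem coreRat_poly_zero (c c' : ℕ → κ) (n : ℕ) (hn : 2 * n = p + 1)
    (h : ∀ s : ZMod p, (∑ m ∈ range n, c m * emb κ s ^ m)
      * (∑ m ∈ range n, c' m * emb κ s ^ m) = 0) :
    (∀ s : ZMod p, ∑ m ∈ range n, c m * emb κ s ^ m = 0) ∨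
      (∀ s : ZMod p, ∑ m ∈ range n, c' m * emb κ s ^ m = 0) := by
  have hpos : 0 < n := by omega
  set P : Polynomial κ := ∑ m ∈ range n, Polynomial.C (c m) * Polynomial.X ^ m with hP
  set Q : Polynomial κ := ∑ m ∈ range n, Polynomial.C (c' m) * Polynomial.X ^ m with hQ
  have hPe : ∀ s : ZMod p, P.eval (emb κ s) = ∑ m ∈ range n, c m * emb κ s ^ m := by
    intro s
    simp [hP, Polynomial.eval_finsetSum]
  have hQe : ∀ s : ZMod p, Q.eval (emb κ s) = ∑ m ∈ range n, c' m * emb κ s ^ m := by
    intro s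
    simp [hQ, Polynomial.eval_finsetSum]
  have hdeg : ∀ d : ℕ → κ, (∑ m ∈ range n, Polynomial.C (d m) * Polynomial.X ^ m).natDegree
      ≤ n - 1 := by
    intro d
    refine Polynomial.natDegree_sum_le_of_forall_le _ _ ?_
    intro m hm
    refine (Polynomial.natDegree_C_mul_X_pow_le _ _).trans ?_
    have := Finset.mem_range.mp hm
    omega
  have hPQ : P * Q = 0 := by
    by_contra hne
    have hcard : (univ.image (fun s : ZMod p => emb κ s)).card = p := by
      rw [Finset.card_image_of_injective _ (emb κ).injective]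
      simp [ZMod.card]
    have hle := Polynomial.card_le_degree_of_subset_roots (p := P * Q)
      (Z := univ.image (fun s : ZMod p => emb κ s)) (by
        intro x hx
        rw [Finset.mem_val, Finset.mem_image] at hx
        obtain ⟨s, -, rfl⟩ := hx
        rw [Polynomial.mem_roots hne, Polynomial.IsRoot, Polynomial.eval_mul, hPe, hQe]
        exact h s)
    rw [hcard] at hle
    have := Polynomial.natDegree_mul_le (p := P) (q := Q)
    have h1 := hdeg c
    have h2 := hdeg c'
    rw [← hP] at h1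
    rw [← hQ] at h2
    omega
  rcases mul_eq_zero.mp hPQ with h0 | h0
  · left
    intro s
    rw [← hPe, h0, Polynomial.eval_zero]
  · right
    intro s
    rw [← hQe, h0, Polynomial.eval_zero]

/-- product argument on a line: if the restrictions of `T` to the lines of direction `v` have
degree `< n`, `2n = p+1`, then on each pair of opposite lines one of the restrictions vanishes -/
theorem line_pair (T : ZMod p × ZMod p → κ) (hTT : ∀ q, T q * T (-q) = 0)
    (n : ℕ) (hn : 2 * n = p + 1) (v q : ZMod p × ZMod p) (c c' : ℕ → κ)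
    (h : ∀ s : ZMod p, T (q + s • v) = ∑ m ∈ range n, c m * emb κ s ^ m)
    (h' : ∀ s : ZMod p, T (-q - s • v) = ∑ m ∈ range n, c' m * emb κ s ^ m) :
    (∀ s : ZMod p, T (q + s • v) = 0) ∨ (∀ s : ZMod p, T (-q - s • v) = 0) := by
  simp only [h, h']
  refine coreRat_poly_zero c c' n hn ?_
  intro s
  rw [← h, ← h']
  have := hTT (q + s • v)
  rwa [neg_add, ← sub_eq_add_neg] at this

/-- the degree condition is inherited by derivatives -/
theorem coreRat_hT (T : ZMod p × ZMod p → κ)
    (hT : ∀ i j, p ≤ i + j → (dv (κ := κ) (1, 0) ^ i * dv (κ := κ) (0, 1) ^ j) T = 0)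
    (v : ZMod p × ZMod p) (m : ℕ) (i j : ℕ) (hij : p ≤ i + j) :
    (dv (κ := κ) (1, 0) ^ i * dv (κ := κ) (0, 1) ^ j) ((dv (κ := κ) v ^ m) T) = 0 := by
  have hc : Commute (dv (κ := κ) (1, 0) ^ i * dv (κ := κ) (0, 1) ^ j) (dv (κ := κ) v ^ m) :=
    ((dv_comm (1, 0) v).pow_pow i m).mul_left ((dv_comm (0, 1) v).pow_pow j m)
  rw [← Module.End.mul_apply, hc.eq, Module.End.mul_apply, hT i j hij, map_zero]

theorem coreRat_pow_eq (hp : p ≠ 2) (T : ZMod p × ZMod p → κ)
    (hT : ∀ i j, p ≤ i + j → (dv (κ := κ) (1, 0) ^ i * dv (κ := κ) (0, 1) ^ j) T = 0)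
    (v : ZMod p × ZMod p) (m : ℕ) :
    ((emb κ v.1 • dv (κ := κ) (1, 0) + emb κ v.2 • dv (κ := κ) (0, 1)) ^ m) T
      = (dv (κ := κ) v ^ m) T := by
  induction m with
  | zero => simp
  | succ m ih =>
    rw [pow_succ', Module.End.mul_apply, ih, pow_succ', Module.End.mul_apply,
      dv_eq hp _ (coreRat_hT T hT v m) v]

/-- expansion along a line -/
theorem coreRat_expand (hp : p ≠ 2) (T : ZMod p × ZMod p → κ)
    (hT : ∀ i j, p ≤ i + j → (dv (κ := κ) (1, 0) ^ i * dv (κ := κ) (0, 1) ^ j) T = 0)
    (n : ℕ) (hn : n ≤ p) (v : ZMod p × ZMod p) (hw : (dv (κ := κ) v ^ n) T = 0)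
    (q : ZMod p × ZMod p) (s : ZMod p) :
    T (q + s • v) = ∑ m ∈ range n,
      (((m.factorial : κ))⁻¹ * ((dv (κ := κ) v ^ m) T) q) * emb κ s ^ m := by
  rw [taylor_total hp T hT q (s • v)]
  have hE : emb κ (s • v).1 • dv (κ := κ) (1, 0) + emb κ (s • v).2 • dv (κ := κ) (0, 1)
      = emb κ s • (emb κ v.1 • dv (κ := κ) (1, 0) + emb κ v.2 • dv (κ := κ) (0, 1)) := by
    simp only [Prod.smul_fst, Prod.smul_snd, smul_eq_mul, map_mul, smul_add, smul_smul]
  rw [hE]
  symm
  rw [← Finset.sum_subset (Finset.range_subset_range.mpr hn)]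
  · refine Finset.sum_congr rfl fun m _ => ?_
    rw [smul_pow, LinearMap.smul_apply, coreRat_pow_eq hp T hT v m, Pi.smul_apply, smul_eq_mul]
    ring
  · intro m _ hm
    have hm' : n ≤ m := by
      simpa using hm
    obtain ⟨k, rfl⟩ := Nat.exists_eq_add_of_le' hm'
    rw [smul_pow, LinearMap.smul_apply, coreRat_pow_eq hp T hT v,
      pow_add (dv (κ := κ) v) k n, Module.End.mul_apply,
      hw, map_zero]
    simp

/-- if the derivative in direction `v` vanishes then `T` is `v`-invariant -/
theorem coreRat_invariant (hp : p ≠ 2) (T : ZMod p × ZMod p → κ)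
    (hT : ∀ i j, p ≤ i + j → (dv (κ := κ) (1, 0) ^ i * dv (κ := κ) (0, 1) ^ j) T = 0)
    (v : ZMod p × ZMod p) (hw : (dv (κ := κ) v) T = 0)
    (q : ZMod p × ZMod p) (s : ZMod p) :
    T (q + s • v) = T q := by
  have h1 := coreRat_expand hp T hT 1 (Fact.out : p.Prime).one_lt.le v (by simpa using hw) q s
  simpa using h1

/-- vanishing on a line is inherited by `dv v` -/
theorem coreRat_line_zero (T : ZMod p × ZMod p → κ) (v : ZMod p × ZMod p) (m : ℕ)
    (q : ZMod p × ZMod p) (h : ∀ s : ZMod p, T (q + s • v) = 0) :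
    ∀ s : ZMod p, ((dv (κ := κ) v ^ m) T) (q + s • v) = 0 := by
  induction m with
  | zero => simpa using h
  | succ m ih =>
    intro s
    rw [pow_succ', Module.End.mul_apply]
    change (-∑ t : ZMod p, emb κ t⁻¹ * ((dv (κ := κ) v ^ m) T) (q + s • v + t • v)) = 0
    rw [neg_eq_zero]
    refine Finset.sum_eq_zero fun t _ => ?_
    rw [add_assoc, ← add_smul, ih (s + t), mul_zero]

theorem coreRat_complement (v : ZMod p × ZMod p) (hv : v ≠ 0) :
    ∃ v' : ZMod p × ZMod p, ∀ q : ZMod p × ZMod p, ∃ t s : ZMod p, q = t • v' + s • v := by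
  obtain ⟨a, b⟩ := v
  by_cases ha : a = 0
  · have hb : b ≠ 0 := by
      rintro rfl
      exact hv (by simp [ha])
    refine ⟨(1, 0), fun q => ⟨q.1, q.2 * b⁻¹, ?_⟩⟩
    ext
    · simp [ha]
    · simp [hb]
  · refine ⟨(0, 1), fun q => ⟨q.2 - q.1 * a⁻¹ * b, q.1 * a⁻¹, ?_⟩⟩
    ext
    · simp [ha]
    · simp

omit [CharP κ p] in
/-- a function `u` on `F_p` with `u(t) u(-t) = 0` has at least `(p+1)/2` zeros -/
theorem coreRat_zeros (u : ZMod p → κ) (huu : ∀ t, u t * u (-t) = 0) (n : ℕ)
    (hn : 2 * n = p + 1) : n ≤ (univ.filter fun x => u x = 0).card := by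
  set Z := univ.filter fun x : ZMod p => u x = 0 with hZ
  have h0 : (0 : ZMod p) ∈ Z := by
    have := huu 0
    simp only [neg_zero, mul_self_eq_zero] at this
    simp [hZ, this]
  have hcov : (univ : Finset (ZMod p)) ⊆ Z ∪ (Z.erase 0).image (fun x => -x) := by
    intro t _
    rw [Finset.mem_union]
    by_cases h : u t = 0
    · left; simp [hZ, h]
    · right
      rcases mul_eq_zero.mp (huu t) with h1 | h1
      · exact absurd h1 h
      · refine Finset.mem_image.mpr ⟨-t, ?_, by simp⟩
        rw [Finset.mem_erase]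
        refine ⟨?_, by simp [hZ, h1]⟩
        intro ht
        have : t = 0 := by simpa using ht
        rw [this] at h
        apply h
        have := (Finset.mem_filter.mp h0).2
        exact this
  have hcard := Finset.card_le_card hcov
  have h2 := Finset.card_union_le Z ((Z.erase 0).image (fun x => -x))
  have h3 := Finset.card_image_le (s := Z.erase 0) (f := fun x : ZMod p => -x)
  rw [Finset.card_erase_of_mem h0] at h3
  rw [Finset.card_univ, ZMod.card] at hcard
  have h4 : 0 < Z.card := Finset.card_pos.mpr ⟨0, h0⟩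
  omega

theorem core_rat (hp : p ≠ 2) (T : ZMod p × ZMod p → κ)
    (hTT : ∀ q, T q * T (-q) = 0)
    (hT : ∀ i j, p ≤ i + j → (dv (κ := κ) (1, 0) ^ i * dv (κ := κ) (0, 1) ^ j) T = 0)
    (n : ℕ) (hn : 2 * n = p + 1) (v : ZMod p × ZMod p) (hv : v ≠ 0)
    (hw : (dv (κ := κ) v ^ n) T = 0)
    (hdim : Module.finrank κ (Submodule.span κ
      (Set.range fun s : ZMod p × ZMod p => fun q => T (q + s))) ≤ p) :
    ∀ q, T (q + v) = T q := by
  have hp1 : 1 < p := (Fact.out : p.Prime).one_lt
  by_cases hd : dv (κ := κ) v T = 0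
  · intro q
    have := coreRat_invariant hp T hT v hd q 1
    simpa using this
  exfalso
  -- one of each pair of opposite lines
  have hline : ∀ q : ZMod p × ZMod p,
      (∀ s : ZMod p, T (q + s • v) = 0) ∨ (∀ s : ZMod p, T (-q + s • v) = 0) := by
    intro q
    rcases line_pair T hTT n hn v q
      (fun m => ((m.factorial : κ))⁻¹ * ((dv (κ := κ) v ^ m) T) q)
      (fun m => (((m.factorial : κ))⁻¹ * ((dv (κ := κ) v ^ m) T) (-q)) * (-1) ^ m)
      (fun s => coreRat_expand hp T hT n (by omega) v hw q s)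
      (fun s => by
        have := coreRat_expand hp T hT n (by omega) v hw (-q) (-s)
        rw [neg_smul, ← sub_eq_add_neg] at this
        rw [this]
        refine Finset.sum_congr rfl fun m _ => ?_
        rw [map_neg, neg_pow]
        ring) with h | h
    · exact Or.inl h
    · right
      intro s
      have := h (-s)
      rwa [neg_smul, sub_neg_eq_add] at this
  -- the last nonzero derivative
  obtain ⟨I, hI1, hI0, hI2⟩ : ∃ I : ℕ, 1 ≤ I ∧ (dv (κ := κ) v ^ I) T ≠ 0 ∧
      (dv (κ := κ) v ^ (I + 1)) T = 0 := by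
    have hex : ∃ k : ℕ, (dv (κ := κ) v ^ k) T = 0 := ⟨n, hw⟩
    have hk := Nat.find_spec hex
    have hkmin := fun m (hm : m < Nat.find hex) => Nat.find_min hex hm
    set k := Nat.find hex
    have hk0 : k ≠ 0 := by
      intro h
      rw [h, pow_zero, Module.End.one_apply] at hk
      apply hd
      rw [hk, map_zero]
    have hk1 : k ≠ 1 := by
      intro h
      rw [h, pow_one] at hk
      exact hd hk
    refine ⟨k - 1, by omega, hkmin (k - 1) (by omega), ?_⟩
    rw [show k - 1 + 1 = k by omega]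
    exact hk
  set U0 := (dv (κ := κ) v ^ I) T with hU0
  set U1 := (dv (κ := κ) v ^ (I - 1)) T with hU1
  have h10 : dv (κ := κ) v U1 = U0 := by
    rw [hU1, hU0, ← Module.End.mul_apply, ← pow_succ', show I - 1 + 1 = I by omega]
  have h00 : dv (κ := κ) v U0 = 0 := by
    rw [hU0, ← Module.End.mul_apply, ← pow_succ']
    exact hI2
  have hUU : ∀ q, U0 q * U0 (-q) = 0 := by
    intro q
    rcases hline q with h | h
    · have := coreRat_line_zero T v I q h 0
      rw [zero_smul, add_zero] at this
      rw [hU0, this, zero_mul]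
    · have := coreRat_line_zero T v I (-q) h 0
      rw [zero_smul, add_zero] at this
      rw [hU0, this, mul_zero]
  have hinv : ∀ (q : ZMod p × ZMod p) (s : ZMod p), U0 (q + s • v) = U0 q := by
    intro q s
    exact coreRat_invariant hp U0 (coreRat_hT T hT v I) v h00 q s
  obtain ⟨v', hv'⟩ := coreRat_complement v hv
  set u : ZMod p → κ := fun t => U0 (t • v') with hu
  have hu0 : u ≠ 0 := by
    intro h0
    apply hI0
    funext q
    obtain ⟨t, s, hq⟩ := hv' q
    rw [hq, hinv]
    exact congrFun h0 t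
  have huu : ∀ t, u t * u (-t) = 0 := by
    intro t
    simp only [hu, neg_smul]
    exact hUU (t • v')
  have hdimu := translates_dim u hu0 n (coreRat_zeros u huu n hn)
  -- the spaces
  set W : Submodule κ (ZMod p × ZMod p → κ) := Submodule.span κ
      (Set.range fun s : ZMod p × ZMod p => fun q => T (q + s)) with hW
  have hWt : ∀ S ∈ W, ∀ r : ZMod p × ZMod p, (fun q => S (q + r)) ∈ W := by
    intro S hS r
    refine Submodule.span_induction (p := fun S _ => (fun q => S (q + r)) ∈ W)
      ?_ ?_ ?_ ?_ hS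
    · rintro _ ⟨s, rfl⟩
      refine Submodule.subset_span ⟨r + s, ?_⟩
      funext q
      simp only [add_assoc]
    · exact W.zero_mem
    · intro x y _ _ hx hy
      exact W.add_mem hx hy
    · intro a x _ hx
      exact W.smul_mem a hx
  have hTW : T ∈ W := Submodule.subset_span ⟨0, by simp⟩
  have hpowW : ∀ m : ℕ, (dv (κ := κ) v ^ m) T ∈ W := by
    intro m
    induction m with
    | zero => simpa using hTW
    | succ m ih =>
      rw [pow_succ', Module.End.mul_apply]
      exact dv_mem v W hWt _ ih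
  -- restriction of `dv v` to `W`
  set f : W →ₗ[κ] (ZMod p × ZMod p → κ) := (dv (κ := κ) v).comp W.subtype with hf
  set res : (ZMod p × ZMod p → κ) →ₗ[κ] (ZMod p → κ) :=
    LinearMap.funLeft κ κ (fun t : ZMod p => t • v') with hres
  have key : ∀ Y : Submodule κ (ZMod p × ZMod p → κ),
      (∀ r : ZMod p × ZMod p, (fun q => U0 (q + r)) ∈ Y) → n + 1 ≤ Module.finrank κ Y := by
    intro Y hY
    refine hdimu.trans ?_
    have hle : Submodule.span κ (Set.range fun s : ZMod p => fun x => u (x + s))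
        ≤ Y.map res := by
      rw [Submodule.span_le]
      rintro _ ⟨s, rfl⟩
      refine ⟨fun q => U0 (q + s • v'), hY (s • v'), ?_⟩
      funext x
      simp only [hres, hu, LinearMap.funLeft_apply, add_smul]
    exact (Submodule.finrank_mono hle).trans (Submodule.finrank_map_le res Y)
  have hrange : n + 1 ≤ Module.finrank κ (LinearMap.range f) := by
    apply key
    intro r
    refine ⟨⟨fun q => U1 (q + r), hWt _ (hpowW (I - 1)) r⟩, ?_⟩
    simp only [hf, LinearMap.comp_apply, Submodule.subtype_apply]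
    rw [dv_translate v r U1, h10]
  have hker : n + 1 ≤ Module.finrank κ (LinearMap.ker f) := by
    have h1 : n + 1 ≤ Module.finrank κ ((LinearMap.ker f).map W.subtype) := by
      apply key
      intro r
      refine ⟨⟨fun q => U0 (q + r), hWt _ (hpowW I) r⟩, ?_, rfl⟩
      rw [SetLike.mem_coe, LinearMap.mem_ker]
      simp only [hf, LinearMap.comp_apply, Submodule.subtype_apply]
      rw [dv_translate v r U0, h00]
      rfl
    exact h1.trans (Submodule.finrank_map_le _ _)
  have hsum := LinearMap.finrank_range_add_finrank_ker f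
  omega

end Pool.Agent.Lib.MP_d0f9e0_co.WHFin
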