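import Pool.Agent.Lib.MP_d0f9e0_co.WHFin.Abs
import Pool.Agent.Lib.MP_d0f9e0_co.WHFin.CoreIrr
import Pool.Agent.Lib.MP_d0f9e0_co.WHFin.CoreRat

/-!
# The core lemma in characteristic `p`
-/

set_option autoImplicit false

namespace Pool.Agent.Lib.MP_d0f9e0_co.WHFin

open Finset Classical

variable {p : ℕ} [Fact p.Prime] {κ : Type*} [Field κ] [CharP κ p]

/-- the span of the translates -/
def core_W (T : ZMod p × ZMod p → κ) : Submodule κ (ZMod p × ZMod p → κ) :=
  Submodule.span κ (Set.range fun s : ZMod p × ZMod p => fun q => T (q + s))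

omit [CharP κ p] in
theorem core_stab (T : ZMod p × ZMod p → κ) :
    ∀ w ∈ core_W T, ∀ r : ZMod p × ZMod p, (fun q => w (q + r)) ∈ core_W T := by
  intro w hw r
  have h : core_W T ≤ (core_W T).comap (LinearMap.funLeft κ κ (fun q => q + r)) := by
    refine Submodule.span_le.2 ?_
    rintro _ ⟨s, rfl⟩
    refine Submodule.subset_span ⟨r + s, ?_⟩
    funext q
    simp [LinearMap.funLeft_apply, add_assoc]
  exact h hw

omit [CharP κ p] in
theorem core_T_mem (T : ZMod p × ZMod p → κ) : T ∈ core_W T :=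
  Submodule.subset_span ⟨0, by funext q; simp⟩

theorem core_mul_apply (i j a b : ℕ) (T : ZMod p × ZMod p → κ) :
    (dv (κ := κ) (1, 0) ^ a * dv (κ := κ) (0, 1) ^ b)
      ((dv (κ := κ) (1, 0) ^ i * dv (κ := κ) (0, 1) ^ j) T) =
    (dv (κ := κ) (1, 0) ^ (a + i) * dv (κ := κ) (0, 1) ^ (b + j)) T := by
  have hc : Commute (dv (κ := κ) ((1, 0) : ZMod p × ZMod p)) (dv (κ := κ) (0, 1)) :=
    dv_comm _ _
  rw [← Module.End.mul_apply]
  congr 1
  rw [pow_add, pow_add]
  have h1 : dv (κ := κ) ((0, 1) : ZMod p × ZMod p) ^ b * dv (κ := κ) (1, 0) ^ i =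
      dv (κ := κ) (1, 0) ^ i * dv (κ := κ) (0, 1) ^ b := (hc.pow_pow i b).eq.symm
  calc dv (κ := κ) ((1, 0) : ZMod p × ZMod p) ^ a * dv (κ := κ) (0, 1) ^ b *
        (dv (κ := κ) (1, 0) ^ i * dv (κ := κ) (0, 1) ^ j)
      = dv (κ := κ) (1, 0) ^ a * (dv (κ := κ) (0, 1) ^ b * dv (κ := κ) (1, 0) ^ i) *
          dv (κ := κ) (0, 1) ^ j := by simp only [mul_assoc]
    _ = _ := by rw [h1]; simp only [mul_assoc]

theorem core_zero (hp : p ≠ 2) (w : ZMod p × ZMod p → κ)
    (h : ∀ i j : ℕ, ((dv (κ := κ) (1, 0) ^ i * dv (κ := κ) (0, 1) ^ j) w) 0 = 0) : w = 0 := by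
  funext r
  have h1 := taylor hp w 0 r
  rw [zero_add] at h1
  rw [h1]
  simp only [h, mul_zero, Finset.sum_const_zero, Pi.zero_apply]

theorem core_deg (hp : p ≠ 2) (T : ZMod p × ZMod p → κ) (N : ℕ)
    (h : ∀ i j : ℕ, N ≤ i + j →
      ((dv (κ := κ) (1, 0) ^ i * dv (κ := κ) (0, 1) ^ j) T) 0 = 0) :
    ∀ i j : ℕ, N ≤ i + j → (dv (κ := κ) (1, 0) ^ i * dv (κ := κ) (0, 1) ^ j) T = 0 := by
  intro i j hij
  refine core_zero hp _ fun a b => ?_
  rw [core_mul_apply]
  exact h _ _ (by omega)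

theorem core_pow_zero (T : ZMod p × ZMod p → κ) (N : ℕ)
    (h : ∀ i j : ℕ, N ≤ i + j →
      (dv (κ := κ) (1, 0) ^ i * dv (κ := κ) (0, 1) ^ j) T = 0) (x y : κ) (m : ℕ) (hm : N ≤ m) :
    ((x • dv (κ := κ) (1, 0) + y • dv (κ := κ) (0, 1)) ^ m) T = 0 := by
  have hc : Commute (dv (κ := κ) ((1, 0) : ZMod p × ZMod p)) (dv (κ := κ) (0, 1)) :=
    dv_comm _ _
  have hc2 : Commute (x • dv (κ := κ) ((1, 0) : ZMod p × ZMod p)) (y • dv (κ := κ) (0, 1)) :=
    (hc.smul_left x).smul_right y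
  rw [hc2.add_pow, LinearMap.sum_apply]
  refine Finset.sum_eq_zero fun k hk => ?_
  have hk' : k ≤ m := by
    have := Finset.mem_range.1 hk
    omega
  rw [smul_pow, smul_pow, smul_mul_smul_comm, ← nsmul_eq_mul', LinearMap.smul_apply,
    LinearMap.smul_apply, h k (m - k) (by omega), smul_zero, smul_zero]

theorem core_line (hp : p ≠ 2) (T : ZMod p × ZMod p → κ) (N : ℕ) (hN : N ≤ p)
    (h : ∀ i j : ℕ, N ≤ i + j →
      (dv (κ := κ) (1, 0) ^ i * dv (κ := κ) (0, 1) ^ j) T = 0) (v q : ZMod p × ZMod p) :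
    ∃ c : ℕ → κ, ∀ s : ZMod p, T (q + s • v) = ∑ m ∈ range N, c m * emb κ s ^ m := by
  refine ⟨fun m => ((m.factorial : κ))⁻¹ *
    (((emb κ v.1 • dv (κ := κ) (1, 0) + emb κ v.2 • dv (κ := κ) (0, 1)) ^ m) T) q, fun s => ?_⟩
  rw [taylor_total hp T (fun i j hij => h i j (hN.trans hij)) q (s • v)]
  have hL : (emb κ (s • v).1 • dv (κ := κ) ((1, 0) : ZMod p × ZMod p) +
      emb κ (s • v).2 • dv (κ := κ) (0, 1)) =
      emb κ s • (emb κ v.1 • dv (κ := κ) (1, 0) + emb κ v.2 • dv (κ := κ) (0, 1)) := by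
    simp only [Prod.smul_fst, Prod.smul_snd, smul_eq_mul, map_mul, smul_add, smul_smul]
  rw [hL]
  have hsub : range N ⊆ range p := Finset.range_mono hN
  rw [← Finset.sum_subset hsub]
  · refine Finset.sum_congr rfl fun m _ => ?_
    rw [smul_pow, LinearMap.smul_apply, Pi.smul_apply, smul_eq_mul]
    ring
  · intro m _ hm
    rw [Finset.mem_range, not_lt] at hm
    rw [smul_pow, LinearMap.smul_apply, core_pow_zero T N h _ _ m hm, smul_zero]
    simp

/-- A nonzero function `T` on `F_p²` with `T(q) T(-q) = 0` whose translates span a space of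
dimension `≤ p` is invariant under a nonzero translation. -/
theorem core (hp : p ≠ 2) (T : ZMod p × ZMod p → κ) (hT0 : T ≠ 0)
    (hTT : ∀ q, T q * T (-q) = 0)
    (hdim : Module.finrank κ (Submodule.span κ
      (Set.range fun s : ZMod p × ZMod p => fun q => T (q + s))) ≤ p) :
    ∃ v : ZMod p × ZMod p, v ≠ 0 ∧ ∀ q, T (q + v) = T q := by
  have hpp : p.Prime := Fact.out
  obtain ⟨n, hn⟩ : ∃ n, 2 * n = p + 1 := by
    rcases hpp.eq_two_or_odd' with h | ⟨k, hk⟩
    · exact absurd h hp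
    · exact ⟨k + 1, by omega⟩
  have hc : Commute (dv (κ := κ) ((1, 0) : ZMod p × ZMod p)) (dv (κ := κ) (0, 1)) :=
    dv_comm _ _
  -- degree
  have hbound : ∀ i j : ℕ,
      ((dv (κ := κ) (1, 0) ^ i * dv (κ := κ) (0, 1) ^ j) T) (0 : ZMod p × ZMod p) ≠ 0 →
      i < p ∧ j < p := by
    intro i j h
    constructor
    · by_contra hi
      apply h
      have : dv (κ := κ) ((1, 0) : ZMod p × ZMod p) ^ i = 0 := by
        rw [show i = (i - p) + p by omega, pow_add, dv_pow_p _ hp, mul_zero]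
      rw [this, zero_mul]; rfl
    · by_contra hj
      apply h
      have : dv (κ := κ) ((0, 1) : ZMod p × ZMod p) ^ j = 0 := by
        rw [show j = (j - p) + p by omega, pow_add, dv_pow_p _ hp, mul_zero]
      rw [this, mul_zero]; rfl
  obtain ⟨i0, j0, h0⟩ : ∃ i j : ℕ,
      ((dv (κ := κ) (1, 0) ^ i * dv (κ := κ) (0, 1) ^ j) T) (0 : ZMod p × ZMod p) ≠ 0 := by
    by_contra hcon
    push Not at hcon
    exact hT0 (core_zero hp T hcon)
  set P : ℕ → Prop := fun D => ∃ i j : ℕ, i + j = D ∧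
    ((dv (κ := κ) (1, 0) ^ i * dv (κ := κ) (0, 1) ^ j) T) (0 : ZMod p × ZMod p) ≠ 0 with hP
  have hP0 : P (i0 + j0) := ⟨i0, j0, rfl, h0⟩
  have hle0 : i0 + j0 ≤ 2 * p := by
    have := hbound i0 j0 h0
    omega
  set D := Nat.findGreatest P (2 * p) with hDdef
  have hD : P D := Nat.findGreatest_spec hle0 hP0
  have hD' : ∀ i j : ℕ, D < i + j →
      ((dv (κ := κ) (1, 0) ^ i * dv (κ := κ) (0, 1) ^ j) T) (0 : ZMod p × ZMod p) = 0 := by
    intro i j hij
    by_contra h
    have hb := hbound i j h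
    have : i + j ≤ D := Nat.le_findGreatest (by omega) ⟨i, j, rfl, h⟩
    omega
  have hT1 : ∀ i j : ℕ, D + 1 ≤ i + j →
      (dv (κ := κ) (1, 0) ^ i * dv (κ := κ) (0, 1) ^ j) T = 0 :=
    core_deg hp T (D + 1) fun i j hij => hD' i j (by omega)
  -- the degree is at least n
  have hnD : n ≤ D := by
    by_contra hlt
    have hT2 : ∀ i j : ℕ, n ≤ i + j →
        (dv (κ := κ) (1, 0) ^ i * dv (κ := κ) (0, 1) ^ j) T = 0 :=
      fun i j hij => hT1 i j (by omega)
    apply hT0
    obtain ⟨p0, hp0⟩ : ∃ p0, T p0 ≠ 0 := by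
      by_contra hcon
      push Not at hcon
      exact hT0 (funext hcon)
    funext r
    obtain ⟨c, hcq⟩ := core_line hp T n (by omega) hT2 (-(r + p0)) p0
    obtain ⟨c', hcq'⟩ := core_line hp T n (by omega) hT2 (r + p0) (-p0)
    rcases line_pair T hTT n hn (-(r + p0)) p0 c c' hcq (fun s => by
      rw [← hcq' s]
      congr 1
      rw [smul_neg, sub_neg_eq_add]) with h | h
    · exact absurd (by simpa using h 0) hp0
    · have h1 := h 1
      rw [show -p0 - (1 : ZMod p) • (-(r + p0)) = r by rw [one_smul]; abel] at h1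
      exact h1
  -- the module
  have hstab := core_stab T
  set W := core_W T with hW
  have hX : ∀ w ∈ W, dv (κ := κ) ((1, 0) : ZMod p × ZMod p) w ∈ W :=
    fun w hw => dv_mem _ W hstab w hw
  have hY : ∀ w ∈ W, dv (κ := κ) ((0, 1) : ZMod p × ZMod p) w ∈ W :=
    fun w hw => dv_mem _ W hstab w hw
  set X : W →ₗ[κ] W := (dv (κ := κ) ((1, 0) : ZMod p × ZMod p)).restrict hX with hXd
  set Y : W →ₗ[κ] W := (dv (κ := κ) ((0, 1) : ZMod p × ZMod p)).restrict hY with hYd
  have hXc : ∀ (i : ℕ) (w : W), (((X ^ i) w : W) : ZMod p × ZMod p → κ) =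
      (dv (κ := κ) ((1, 0) : ZMod p × ZMod p) ^ i) w := by
    intro i
    induction i with
    | zero => intro w; simp
    | succ i ih =>
      intro w
      rw [pow_succ', Module.End.mul_apply, pow_succ', Module.End.mul_apply, ← ih w, hXd]
      rfl
  have hYc : ∀ (i : ℕ) (w : W), (((Y ^ i) w : W) : ZMod p × ZMod p → κ) =
      (dv (κ := κ) ((0, 1) : ZMod p × ZMod p) ^ i) w := by
    intro i
    induction i with
    | zero => intro w; simp
    | succ i ih =>
      intro w
      rw [pow_succ', Module.End.mul_apply, pow_succ', Module.End.mul_apply, ← ih w, hYd]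
      rfl
  have hXYc : ∀ (i j : ℕ) (w : W), (((X ^ i * Y ^ j) w : W) : ZMod p × ZMod p → κ) =
      (dv (κ := κ) ((1, 0) : ZMod p × ZMod p) ^ i * dv (κ := κ) (0, 1) ^ j) w := by
    intro i j w
    rw [Module.End.mul_apply, hXc, hYc, Module.End.mul_apply]
  have hXY : Commute X Y := by
    refine LinearMap.ext fun w => Subtype.ext ?_
    have h1 := hXYc 1 1 w
    rw [pow_one, pow_one, pow_one, pow_one] at h1
    rw [h1]
    rw [hc.eq]
    rfl
  let e : W →ₗ[κ] κ := (LinearMap.proj (0 : ZMod p × ZMod p)).comp W.subtype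
  have hev : ∀ w : W, e w = (w : ZMod p × ZMod p → κ) 0 := fun w => rfl
  let TW : W := ⟨T, core_T_mem T⟩
  have hTWc : (TW : ZMod p × ZMod p → κ) = T := rfl
  have he : ∀ w : W, (∀ i j : ℕ, e ((X ^ i * Y ^ j) w) = 0) → w = 0 := by
    intro w hw
    apply Subtype.ext
    refine core_zero hp _ fun i j => ?_
    rw [← hXYc i j w, ← hev]
    exact hw i j
  have hcyc : Submodule.span κ (Set.range fun ij : ℕ × ℕ => (X ^ ij.1 * Y ^ ij.2) TW) = ⊤ := by
    set S := Submodule.span κ (Set.range fun ij : ℕ × ℕ => (X ^ ij.1 * Y ^ ij.2) TW) with hS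
    have hle : W ≤ S.map W.subtype := by
      refine Submodule.span_le.2 ?_
      rintro _ ⟨s, rfl⟩
      have : (fun q => T (q + s)) = ∑ i ∈ range p, ∑ j ∈ range p,
          (emb κ s.1 ^ i * emb κ s.2 ^ j / ((i.factorial : κ) * (j.factorial : κ))) •
            ((dv (κ := κ) ((1, 0) : ZMod p × ZMod p) ^ i * dv (κ := κ) (0, 1) ^ j) T) := by
        funext q
        rw [taylor hp T q s, Finset.sum_apply]
        refine Finset.sum_congr rfl fun i _ => ?_
        rw [Finset.sum_apply]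
        rfl
      simp only [SetLike.mem_coe]
      rw [this]
      refine Submodule.sum_mem _ fun i _ => Submodule.sum_mem _ fun j _ =>
        Submodule.smul_mem _ _ ?_
      refine ⟨(X ^ i * Y ^ j) TW, Submodule.subset_span ⟨(i, j), rfl⟩, ?_⟩
      exact hXYc i j TW
    rw [eq_top_iff]
    intro w _
    obtain ⟨s, hs, hsw⟩ := hle w.2
    have : s = w := Subtype.ext hsw
    rw [← this]
    exact hs
  have hdim' : Module.finrank κ W ≤ p := hdim
  obtain ⟨hDp, w₁, w₂, hw0, hw⟩ := abstract_core X Y hXY e he TW D n hcyc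
    (by
      obtain ⟨i, j, hij, h⟩ := hD
      exact ⟨i, j, hij, by rw [hev, hXYc]; exact h⟩)
    (by
      intro i j hij
      rw [hev, hXYc]
      exact hD' i j hij)
    (by omega) hnD (by omega)
  have hT : ∀ i j, p ≤ i + j → (dv (κ := κ) (1, 0) ^ i * dv (κ := κ) (0, 1) ^ j) T = 0 :=
    fun i j hij => hT1 i j (by omega)
  -- transfer of the equation
  have hLc : ∀ (m : ℕ) (w : W),
      ((((w₁ • X + w₂ • Y) ^ m) w : W) : ZMod p × ZMod p → κ) =
      ((w₁ • dv (κ := κ) ((1, 0) : ZMod p × ZMod p) + w₂ • dv (κ := κ) (0, 1)) ^ m) w := by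
    intro m
    induction m with
    | zero => intro w; simp
    | succ m ih =>
      intro w
      rw [pow_succ', Module.End.mul_apply, pow_succ', Module.End.mul_apply, ← ih w]
      rfl
  have hw' : ((w₁ • dv (κ := κ) ((1, 0) : ZMod p × ZMod p) +
      w₂ • dv (κ := κ) (0, 1)) ^ n) T = 0 := by
    rw [← hTWc, ← hLc n TW, hw]
    rfl
  by_cases hirr : ∀ v : ZMod p × ZMod p, emb κ v.1 * w₂ = emb κ v.2 * w₁ → v = 0
  · exact absurd (core_irr hp T hT0 hTT hT n hn w₁ w₂ hw' hirr) not_false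
  · push Not at hirr
    obtain ⟨v, hv, hv0⟩ := hirr
    refine ⟨v, hv0, ?_⟩
    -- (w₁, w₂) = lam (v₁, v₂)
    obtain ⟨lam, hlam0, hlam1, hlam2⟩ : ∃ lam : κ, lam ≠ 0 ∧ w₁ = lam * emb κ v.1 ∧
        w₂ = lam * emb κ v.2 := by
      by_cases h1 : v.1 = 0
      · have h2 : v.2 ≠ 0 := fun h2 => hv0 (Prod.ext h1 h2)
        have he2 : emb κ v.2 ≠ 0 := by
          rw [Ne, map_eq_zero]; exact h2
        rw [h1, map_zero, zero_mul] at hv
        have hw1 : w₁ = 0 := (mul_eq_zero.1 hv.symm).resolve_left he2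
        refine ⟨w₂ / emb κ v.2, ?_, ?_, ?_⟩
        · intro h
          rcases div_eq_zero_iff.1 h with h | h
          · exact hw0 (by rw [hw1, h])
          · exact he2 h
        · rw [h1, map_zero, mul_zero, hw1]
        · field_simp
      · have he1 : emb κ v.1 ≠ 0 := by
          rw [Ne, map_eq_zero]; exact h1
        refine ⟨w₁ / emb κ v.1, ?_, ?_, ?_⟩
        · intro h
          rcases div_eq_zero_iff.1 h with h | h
          · rw [h, mul_zero] at hv
            exact hw0 (by rw [h, (mul_eq_zero.1 hv).resolve_left he1])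
          · exact he1 h
        · field_simp
        · field_simp
          rw [mul_comm, hv, mul_comm]
    set L := (emb κ v.1 • dv (κ := κ) ((1, 0) : ZMod p × ZMod p) +
      emb κ v.2 • dv (κ := κ) (0, 1)) with hL
    have hLn : (L ^ n) T = 0 := by
      have h1 : (w₁ • dv (κ := κ) ((1, 0) : ZMod p × ZMod p) + w₂ • dv (κ := κ) (0, 1)) =
          lam • L := by
        rw [hL, hlam1, hlam2, smul_add, smul_smul, smul_smul]
      rw [h1, smul_pow, LinearMap.smul_apply] at hw'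
      exact (smul_eq_zero.1 hw').resolve_left (pow_ne_zero _ hlam0)
    have hLX : Commute L (dv (κ := κ) ((1, 0) : ZMod p × ZMod p)) :=
      ((Commute.refl _).smul_left _).add_left ((dv_comm _ _).smul_left _)
    have hLY : Commute L (dv (κ := κ) ((0, 1) : ZMod p × ZMod p)) :=
      ((dv_comm _ _).smul_left _).add_left ((Commute.refl _).smul_left _)
    have hdvL : ∀ m : ℕ, (dv (κ := κ) v ^ m) T = (L ^ m) T := by
      intro m
      induction m with
      | zero => simp
      | succ m ih =>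
        rw [pow_succ', Module.End.mul_apply, ih, pow_succ', Module.End.mul_apply]
        refine dv_eq hp ((L ^ m) T) (fun i j hij => ?_) v
        have hcomm : Commute (dv (κ := κ) ((1, 0) : ZMod p × ZMod p) ^ i *
            dv (κ := κ) (0, 1) ^ j) (L ^ m) :=
          ((hLX.pow_pow m i).mul_right (hLY.pow_pow m j)).symm
        rw [← Module.End.mul_apply, hcomm.eq, Module.End.mul_apply, hT i j hij, map_zero]
    exact core_rat hp T hTT hT n hn v hv0 (by rw [hdvL, hLn]) hdim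

end Pool.Agent.Lib.MP_d0f9e0_co.WHFin
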