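import Mathlib

/-!
# Weyl-Heisenberg SICs in prime dimension: definitions

`A_{a,b} = ∑_x ψ(x) φ(x+a) χ(bx)` for vectors `ψ, φ : ZMod p → K` over a field `K` and an additive
character `χ` of `ZMod p`.
-/

set_option autoImplicit false

namespace Pool.Agent.Lib.MP_d0f9e0_co.WHFin

variable {p : ℕ} [Fact p.Prime] {K : Type*} [Field K]

/-- the overlaps `A_{a,b} = ∑_x ψ(x) φ(x+a) χ(bx)` -/
def ov (χ : AddChar (ZMod p) K) (ψ φ : ZMod p → K) (a b : ZMod p) : K :=
  ∑ x, ψ x * φ (x + a) * χ (b * x)

/-- the complexified Weyl-Heisenberg SIC equations: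
`A_{0,0} = 1` and `A_{a,b} A_{-a,-b} = χ(-ab)/(p+1)` for `(a,b) ≠ (0,0)` -/
structure IsWH (χ : AddChar (ZMod p) K) (ψ φ : ZMod p → K) : Prop where
  zero : ov χ ψ φ 0 0 = 1
  pair : ∀ a b : ZMod p, (a, b) ≠ (0, 0) →
    ov χ ψ φ a b * ov χ ψ φ (-a) (-b) = χ (-(a * b)) / ((p : K) + 1)

/-- the residue of an element of a field with respect to a valuation subring
(junk value `0` outside the valuation subring) -/
noncomputable def rs (V : ValuationSubring K) (z : K) : IsLocalRing.ResidueField V :=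
  open Classical in if h : z ∈ V then IsLocalRing.residue V ⟨z, h⟩ else 0

/-- the embedding of `ZMod p` into a field of characteristic `p` -/
noncomputable def emb (κ : Type*) [Field κ] [CharP κ p] : ZMod p →+* κ :=
  ZMod.castHom (dvd_refl p) κ

/-- directional derivative on functions on `F_p²`: `(∂_v T)(q) = -∑_s s⁻¹ T(q + s v)` -/
noncomputable def dv {κ : Type*} [Field κ] [CharP κ p] (v : ZMod p × ZMod p) :
    (ZMod p × ZMod p → κ) →ₗ[κ] (ZMod p × ZMod p → κ) where
  toFun T := fun q => -∑ s : ZMod p, emb κ s⁻¹ * T (q + s • v)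
  map_add' T T' := by
    funext q
    simp only [Pi.add_apply, mul_add, Finset.sum_add_distrib, neg_add]
  map_smul' c T := by
    funext q
    simp only [Pi.smul_apply, smul_eq_mul, RingHom.id_apply, mul_neg, Finset.mul_sum]
    congr 1
    refine Finset.sum_congr rfl fun s _ => ?_
    ring

end Pool.Agent.Lib.MP_d0f9e0_co.WHFin
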