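import Pool.Agent.Lib.MP_d0f9e0_co.WHFin.Defs

/-!
# Derivatives of functions on `F_p²` in characteristic `p`
-/

set_option autoImplicit false

namespace Pool.Agent.Lib.MP_d0f9e0_co.WHFin

open Finset Classical

variable {p : ℕ} [Fact p.Prime] {κ : Type*} [Field κ] [CharP κ p]

/-! ### auxiliary lemmas: power sums and the one-dimensional derivative -/

theorem der_zmod_two (x x0 : ZMod 2) : x = x0 ∨ x = x0 + 1 := by
  revert x x0
  decide

theorem der_two_lt (hp : p ≠ 2) : 2 < p :=
  lt_of_le_of_ne (Fact.out : p.Prime).two_le (Ne.symm hp)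

theorem der_sum_pow (hp : p ≠ 2) {k : ℕ} (hk : k < p) :
    ∑ s : ZMod p, emb κ s⁻¹ * emb κ s ^ k = if k = 1 then (-1 : κ) else 0 := by
  have hp3 : 2 < p := der_two_lt hp
  have hmap : ∑ s : ZMod p, emb κ s⁻¹ * emb κ s ^ k = emb κ (∑ s : ZMod p, s⁻¹ * s ^ k) := by
    rw [map_sum]
    refine Finset.sum_congr rfl fun s _ => ?_
    rw [map_mul, map_pow]
  rw [hmap]
  have hsum : ∀ m : ℕ, m < p - 1 → ∑ s : ZMod p, s ^ m = 0 := by
    intro m hm
    have := FiniteField.sum_pow_lt_card_sub_one (K := ZMod p) m (by rw [ZMod.card]; exact hm)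
    exact this
  rcases k with _ | _ | m
  · have h1 : ∑ s : ZMod p, s⁻¹ * s ^ 0 = ∑ s : ZMod p, s ^ 1 := by
      simp only [pow_zero, mul_one, pow_one]
      exact Equiv.sum_comp (Equiv.inv (ZMod p)) (fun s => s)
    rw [h1, hsum 1 (by omega), map_zero]
    simp
  · have h1 : ∑ s : ZMod p, s⁻¹ * s ^ (0 + 1) = ∑ s : ZMod p, (1 - if s = 0 then 1 else 0) := by
      refine Finset.sum_congr rfl fun s _ => ?_
      by_cases hs : s = 0
      · simp [hs]
      · simp [hs]
    rw [h1, Finset.sum_sub_distrib]
    simp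
  · have h1 : ∑ s : ZMod p, s⁻¹ * s ^ (m + 1 + 1) = ∑ s : ZMod p, s ^ (m + 1) := by
      refine Finset.sum_congr rfl fun s _ => ?_
      by_cases hs : s = 0
      · simp [hs]
      · rw [pow_succ' s (m + 1), ← mul_assoc, inv_mul_cancel₀ hs, one_mul]
    rw [h1, hsum (m + 1) (by omega), map_zero]
    simp

/-- the derivative of a power -/
theorem der_power (hp : p ≠ 2) {i : ℕ} (hi : i < p) (a : κ) :
    -∑ s : ZMod p, emb κ s⁻¹ * (a + emb κ s) ^ i = i * a ^ (i - 1) := by
  have h1 : ∀ s : ZMod p, emb κ s⁻¹ * (a + emb κ s) ^ i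
      = ∑ m ∈ range (i + 1), (a ^ m * (i.choose m : κ)) * (emb κ s⁻¹ * emb κ s ^ (i - m)) := by
    intro s
    rw [add_pow, Finset.mul_sum]
    refine Finset.sum_congr rfl fun m _ => ?_
    ring
  simp only [h1]
  rw [Finset.sum_comm]
  have h2 : ∀ m ∈ range (i + 1), ∑ s : ZMod p, (a ^ m * (i.choose m : κ))
      * (emb κ s⁻¹ * emb κ s ^ (i - m))
      = (a ^ m * (i.choose m : κ)) * (if i - m = 1 then -1 else 0) := by
    intro m hm
    rw [← Finset.mul_sum, der_sum_pow hp (by omega)]
  rw [Finset.sum_congr rfl h2]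
  rcases i with _ | i
  · simp
  · rw [Finset.sum_eq_single i]
    · simp
      ring
    · intro m hm hne
      rw [Finset.mem_range] at hm
      rw [if_neg (by omega), mul_zero]
    · intro h
      exact absurd (Finset.mem_range.2 (by omega)) h

/-- the derivative on functions on `F_p` -/
noncomputable def d1 : (ZMod p → κ) →ₗ[κ] (ZMod p → κ) where
  toFun f := fun x => -∑ s : ZMod p, emb κ s⁻¹ * f (x + s)
  map_add' f g := by
    funext q
    simp only [Pi.add_apply, mul_add, Finset.sum_add_distrib, neg_add]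
  map_smul' c f := by
    funext q
    simp only [Pi.smul_apply, smul_eq_mul, RingHom.id_apply, mul_neg, Finset.mul_sum]
    congr 1
    refine Finset.sum_congr rfl fun s _ => ?_
    ring

theorem d1_apply (f : ZMod p → κ) (x : ZMod p) :
    d1 f x = -∑ s : ZMod p, emb κ s⁻¹ * f (x + s) := rfl

theorem dv_apply (v : ZMod p × ZMod p) (T : ZMod p × ZMod p → κ) (q : ZMod p × ZMod p) :
    dv v T q = -∑ s : ZMod p, emb κ s⁻¹ * T (q + s • v) := rfl

/-- powers of linear functions -/
noncomputable def pw (κ : Type*) [Field κ] [CharP κ p] (c : ZMod p) (i : ℕ) : ZMod p → κ :=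
  fun x => emb κ (x - c) ^ i

theorem d1_pw (hp : p ≠ 2) (c : ZMod p) {i : ℕ} (hi : i < p) :
    d1 (pw κ c i) = (i : κ) • pw κ c (i - 1) := by
  funext x
  rw [d1_apply]
  have := der_power (κ := κ) hp hi (emb κ (x - c))
  simp only [pw, Pi.smul_apply, smul_eq_mul]
  rw [← this]
  congr 1
  refine Finset.sum_congr rfl fun s _ => ?_
  rw [← map_add]
  congr 3
  ring

theorem d1_pow_pw (hp : p ≠ 2) (c : ZMod p) {i : ℕ} (hi : i < p) (k : ℕ) :
    (d1 ^ k) (pw κ c i) = (i.descFactorial k : κ) • pw κ c (i - k) := by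
  induction k with
  | zero => simp
  | succ k ih =>
    rw [pow_succ', Module.End.mul_apply, ih, map_smul, d1_pw hp c (by omega), smul_smul,
      Nat.descFactorial_succ, Nat.sub_sub]
    congr 1
    push_cast
    ring

/-- every function is a combination of powers -/
theorem span_pw (f : ZMod p → κ) :
    f ∈ Submodule.span κ {g : ZMod p → κ | ∃ c : ZMod p, ∃ i : ℕ, i < p ∧ g = pw κ c i} := by
  have h : f = ∑ c : ZMod p, f c • (pw κ c 0 - pw κ c (p - 1)) := by
    funext x
    rw [Finset.sum_apply, Finset.sum_eq_single x]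
    · have : p - 1 ≠ 0 := by
        have := (Fact.out : p.Prime).two_le
        omega
      simp [pw, this]
    · intro c _ hc
      have h1 : x - c ≠ 0 := sub_ne_zero.2 (Ne.symm hc)
      have h2 : emb κ (x - c) ^ (p - 1) = 1 := by
        rw [← map_pow, ZMod.pow_card_sub_one_eq_one h1, map_one]
      simp only [Pi.smul_apply, Pi.sub_apply, pw, pow_zero, h2, sub_self, smul_zero]
    · intro h
      exact absurd (Finset.mem_univ _) h
  rw [h]
  refine Submodule.sum_mem _ fun c _ => Submodule.smul_mem _ _ (Submodule.sub_mem _ ?_ ?_)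
  · exact Submodule.subset_span ⟨c, 0, (Fact.out : p.Prime).pos, rfl⟩
  · exact Submodule.subset_span ⟨c, p - 1, by have := (Fact.out : p.Prime).pos; omega, rfl⟩

theorem der_fact_ne {k : ℕ} (hk : k < p) : (k.factorial : κ) ≠ 0 := by
  intro h
  rw [CharP.cast_eq_zero_iff κ p] at h
  exact absurd ((Fact.out : p.Prime).dvd_factorial.1 h) (by omega)

theorem d1_taylor (hp : p ≠ 2) (f : ZMod p → κ) (x s : ZMod p) :
    f (x + s) = ∑ k ∈ range p, emb κ s ^ k / (k.factorial : κ) * ((d1 ^ k) f) x := by
  refine Submodule.span_induction (p := fun f _ => f (x + s)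
    = ∑ k ∈ range p, emb κ s ^ k / (k.factorial : κ) * ((d1 ^ k) f) x) ?_ ?_ ?_ ?_ (span_pw f)
  · rintro g ⟨c, i, hi, rfl⟩
    have h1 : pw κ c i (x + s) = (emb κ s + emb κ (x - c)) ^ i := by
      simp only [pw]
      rw [← map_add]
      congr 2
      ring
    rw [h1, add_pow]
    have h2 : ∀ k ∈ range p, emb κ s ^ k / (k.factorial : κ) * ((d1 ^ k) (pw κ c i)) x
        = emb κ s ^ k * emb κ (x - c) ^ (i - k) * (i.choose k : κ) := by
      intro k hk
      have hk' : (k.factorial : κ) ≠ 0 := der_fact_ne (Finset.mem_range.1 hk)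
      rw [d1_pow_pw hp c hi, Nat.descFactorial_eq_factorial_mul_choose]
      simp only [pw, Pi.smul_apply, smul_eq_mul]
      push_cast
      field_simp
    rw [Finset.sum_congr rfl h2]
    refine Finset.sum_subset (Finset.range_mono (by omega)) fun k _ hk => ?_
    rw [Finset.mem_range, not_lt] at hk
    rw [Nat.choose_eq_zero_of_lt (by omega)]
    simp
  · simp
  · intro g h _ _ hg hh
    rw [Pi.add_apply, hg, hh, ← Finset.sum_add_distrib]
    refine Finset.sum_congr rfl fun k _ => ?_
    rw [map_add, Pi.add_apply]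
    ring
  · intro a g _ hg
    rw [Pi.smul_apply, hg, smul_eq_mul, Finset.mul_sum]
    refine Finset.sum_congr rfl fun k _ => ?_
    rw [map_smul, Pi.smul_apply, smul_eq_mul]
    ring

theorem d1_pow_p (hp : p ≠ 2) (f : ZMod p → κ) : (d1 ^ p) f = 0 := by
  refine Submodule.span_induction (p := fun f _ => (d1 ^ p) f = 0) ?_ ?_ ?_ ?_ (span_pw f)
  · rintro g ⟨c, i, hi, rfl⟩
    rw [d1_pow_pw hp c hi, Nat.descFactorial_eq_zero_iff_lt.2 hi]
    simp
  · simp
  · intro g h _ _ hg hh
    rw [map_add, hg, hh, add_zero]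
  · intro a g _ hg
    rw [map_smul, hg, smul_zero]

/-- restriction to a line -/
theorem dv_line (v : ZMod p × ZMod p) (k : ℕ) : ∀ (T : ZMod p × ZMod p → κ)
    (q : ZMod p × ZMod p) (t : ZMod p),
    (dv v ^ k) T (q + t • v) = (d1 ^ k) (fun t => T (q + t • v)) t := by
  induction k with
  | zero => intro T q t; simp
  | succ k ih =>
    intro T q t
    rw [pow_succ, Module.End.mul_apply, ih, pow_succ, Module.End.mul_apply]
    have : (fun t : ZMod p => dv v T (q + t • v)) = d1 (fun t => T (q + t • v)) := by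
      funext t
      rw [dv_apply, d1_apply]
      congr 1
      refine Finset.sum_congr rfl fun s _ => ?_
      rw [add_assoc, ← add_smul]
    rw [this]

theorem taylor_line (hp : p ≠ 2) (v : ZMod p × ZMod p) (T : ZMod p × ZMod p → κ)
    (q : ZMod p × ZMod p) (s : ZMod p) :
    T (q + s • v) = ∑ k ∈ range p, emb κ s ^ k / (k.factorial : κ) * ((dv v ^ k) T) q := by
  have h := d1_taylor hp (fun t => T (q + t • v)) 0 s
  simp only [zero_add] at h
  rw [h]
  refine Finset.sum_congr rfl fun k _ => ?_
  rw [← dv_line]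
  simp

/-- translates -/
theorem dv_translate (v r : ZMod p × ZMod p) (T : ZMod p × ZMod p → κ) :
    dv v (fun q => T (q + r)) = fun q => dv v T (q + r) := by
  funext q
  rw [dv_apply, dv_apply]
  congr 1
  refine Finset.sum_congr rfl fun s _ => ?_
  rw [add_right_comm]

theorem dv_comm (v w : ZMod p × ZMod p) :
    Commute (dv (κ := κ) v) (dv (κ := κ) w) := by
  refine LinearMap.ext fun T => ?_
  funext q
  rw [Module.End.mul_apply, Module.End.mul_apply]
  simp only [dv_apply, mul_neg, Finset.sum_neg_distrib, neg_neg, Finset.mul_sum]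
  rw [Finset.sum_comm]
  refine Finset.sum_congr rfl fun s _ => Finset.sum_congr rfl fun t _ => ?_
  rw [add_right_comm]
  ring

/-- a translation-stable subspace is stable under derivatives -/
theorem dv_mem (v : ZMod p × ZMod p) (D : Submodule κ (ZMod p × ZMod p → κ))
    (hD : ∀ T ∈ D, ∀ r : ZMod p × ZMod p, (fun q => T (q + r)) ∈ D)
    (T : ZMod p × ZMod p → κ) (hT : T ∈ D) : dv v T ∈ D := by
  have h : dv v T = -∑ s : ZMod p, emb κ s⁻¹ • (fun q => T (q + s • v)) := by
    funext q
    rw [dv_apply, Pi.neg_apply, Finset.sum_apply]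
    rfl
  rw [h]
  exact D.neg_mem (D.sum_mem fun s _ => D.smul_mem _ (hD T hT _))

theorem dv_pow_p (v : ZMod p × ZMod p) (hp : p ≠ 2) : dv (κ := κ) v ^ p = 0 := by
  refine LinearMap.ext fun T => ?_
  funext q
  have h := dv_line v p T q 0
  rw [zero_smul, add_zero, d1_pow_p hp] at h
  rw [h]
  rfl

/-- Taylor's formula in two variables -/
theorem taylor (hp : p ≠ 2) (T : ZMod p × ZMod p → κ) (q r : ZMod p × ZMod p) :
    T (q + r) = ∑ i ∈ range p, ∑ j ∈ range p,
      emb κ r.1 ^ i * emb κ r.2 ^ j / ((i.factorial : κ) * (j.factorial : κ))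
        * ((dv (κ := κ) (1, 0) ^ i * dv (κ := κ) (0, 1) ^ j) T) q := by
  have hr : q + r = q + r.2 • ((0, 1) : ZMod p × ZMod p) + r.1 • ((1, 0) : ZMod p × ZMod p) := by
    ext <;> simp
  rw [hr, taylor_line hp (1, 0) T (q + r.2 • ((0, 1) : ZMod p × ZMod p)) r.1]
  refine Finset.sum_congr rfl fun i _ => ?_
  rw [taylor_line hp (0, 1) ((dv (κ := κ) (1, 0) ^ i) T) q r.2, Finset.mul_sum]
  refine Finset.sum_congr rfl fun j _ => ?_
  have h : (dv (κ := κ) (0, 1) ^ j) ((dv (κ := κ) (1, 0) ^ i) T)
      = (dv (κ := κ) (1, 0) ^ i * dv (κ := κ) (0, 1) ^ j) T := by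
    rw [((dv_comm (κ := κ) (1, 0) (0, 1)).pow_pow i j).eq]
    rfl
  rw [h, ← mul_assoc, div_mul_div_comm]

/-- Taylor's formula for functions of total degree `< p` -/
theorem taylor_total (hp : p ≠ 2) (T : ZMod p × ZMod p → κ)
    (hT : ∀ i j, p ≤ i + j → (dv (κ := κ) (1, 0) ^ i * dv (κ := κ) (0, 1) ^ j) T = 0)
    (q r : ZMod p × ZMod p) :
    T (q + r) = ∑ m ∈ range p, ((m.factorial : κ))⁻¹
        * (((emb κ r.1 • dv (κ := κ) (1, 0) + emb κ r.2 • dv (κ := κ) (0, 1)) ^ m) T) q := by
  set a := emb κ r.1 with ha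
  set b := emb κ r.2 with hb
  set X : Module.End κ (ZMod p × ZMod p → κ) := dv (κ := κ) (1, 0) with hX
  set Y : Module.End κ (ZMod p × ZMod p → κ) := dv (κ := κ) (0, 1) with hY
  have hc : Commute X Y := dv_comm (κ := κ) (1, 0) (0, 1)
  have hexp : ∀ m ∈ range p, ((m.factorial : κ))⁻¹ * (((a • X + b • Y) ^ m) T) q
      = ∑ k ∈ range (m + 1), a ^ k * b ^ (m - k) / ((k.factorial : κ) * ((m - k).factorial : κ))
        * ((X ^ k * Y ^ (m - k)) T) q := by
    intro m hm
    have hcc : Commute (a • X) (b • Y) := (hc.smul_left a).smul_right b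
    rw [hcc.add_pow, LinearMap.sum_apply, Finset.sum_apply, Finset.mul_sum]
    refine Finset.sum_congr rfl fun k hk => ?_
    have hkm : k ≤ m := by
      rw [Finset.mem_range] at hk
      omega
    have hmp : m < p := Finset.mem_range.1 hm
    have h1 : (((a • X) ^ k * (b • Y) ^ (m - k)
        * ((m.choose k : ℕ) : Module.End κ (ZMod p × ZMod p → κ)) :
          Module.End κ (ZMod p × ZMod p → κ))) T
        = (a ^ k * b ^ (m - k) * (m.choose k : κ)) • ((X ^ k * Y ^ (m - k)) T) := by
      rw [smul_pow, smul_pow, ← nsmul_eq_mul', smul_mul_smul_comm, LinearMap.smul_apply,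
        LinearMap.smul_apply, ← Nat.cast_smul_eq_nsmul κ, smul_smul]
      congr 1
      ring
    rw [h1, Pi.smul_apply, smul_eq_mul]
    have h2 : (m.choose k : κ) * ((k.factorial : κ) * ((m - k).factorial : κ))
        = (m.factorial : κ) := by
      rw [← mul_assoc]
      exact_mod_cast congrArg (Nat.cast (R := κ)) (Nat.choose_mul_factorial_mul_factorial hkm)
    have h3 : (m.factorial : κ) ≠ 0 := der_fact_ne hmp
    have h4 : (k.factorial : κ) ≠ 0 := der_fact_ne (lt_of_le_of_lt hkm hmp)
    have h5 : ((m - k).factorial : κ) ≠ 0 := der_fact_ne (by omega)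
    have h6 : (m.choose k : κ) = (m.factorial : κ) / ((k.factorial : κ) * ((m - k).factorial : κ)) :=
      by rw [eq_div_iff (mul_ne_zero h4 h5), h2]
    rw [h6]
    field_simp
  rw [Finset.sum_congr rfl hexp, taylor hp T q r,
    Finset.sum_range_diag_flip p (fun i j => a ^ i * b ^ j / ((i.factorial : κ) * (j.factorial : κ))
        * ((X ^ i * Y ^ j) T) q)]
  refine Finset.sum_congr rfl fun i _ => ?_
  refine (Finset.sum_subset (Finset.range_mono (by omega)) fun j _ hj => ?_).symm
  rw [Finset.mem_range, not_lt] at hj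
  rw [hT i j (by omega), Pi.zero_apply, mul_zero]

/-- in total degree `< p` directional derivatives are linear combinations of the partial ones -/
theorem dv_eq (hp : p ≠ 2) (T : ZMod p × ZMod p → κ)
    (hT : ∀ i j, p ≤ i + j → (dv (κ := κ) (1, 0) ^ i * dv (κ := κ) (0, 1) ^ j) T = 0)
    (v : ZMod p × ZMod p) :
    dv v T = (emb κ v.1 • dv (κ := κ) (1, 0) + emb κ v.2 • dv (κ := κ) (0, 1)) T := by
  funext q
  rw [dv_apply]
  have h1 : ∀ s : ZMod p, emb κ s⁻¹ * T (q + s • v) = ∑ m ∈ range p, (((m.factorial : κ))⁻¹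
      * (((emb κ v.1 • dv (κ := κ) (1, 0) + emb κ v.2 • dv (κ := κ) (0, 1)) ^ m) T) q)
      * (emb κ s⁻¹ * emb κ s ^ m) := by
    intro s
    rw [taylor_total hp T hT q (s • v), Finset.mul_sum]
    refine Finset.sum_congr rfl fun m _ => ?_
    have h2 : emb κ (s • v).1 • dv (κ := κ) (1, 0) + emb κ (s • v).2 • dv (κ := κ) (0, 1)
        = emb κ s • (emb κ v.1 • dv (κ := κ) (1, 0) + emb κ v.2 • dv (κ := κ) (0, 1)) := by
      rw [Prod.smul_fst, Prod.smul_snd, smul_eq_mul, smul_eq_mul, map_mul, map_mul, smul_add,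
        smul_smul, smul_smul]
    rw [h2, smul_pow, LinearMap.smul_apply, Pi.smul_apply, smul_eq_mul]
    ring
  simp only [h1]
  rw [Finset.sum_comm, Finset.sum_eq_single 1]
  · rw [← Finset.mul_sum, der_sum_pow hp (by have := der_two_lt hp; omega)]
    simp
  · intro m hm hm1
    rw [← Finset.mul_sum, der_sum_pow hp (Finset.mem_range.1 hm), if_neg hm1, mul_zero]
  · intro h
    exact absurd (Finset.mem_range.2 (by have := der_two_lt hp; omega)) h

/-- iterates of a nilpotent operator are independent -/
theorem der_indep {W : Type*} [AddCommGroup W] [Module κ W] (N : W →ₗ[κ] W) (u : W) (d : ℕ)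
    (h1 : (N ^ d) u ≠ 0) (h2 : ∀ k, d < k → (N ^ k) u = 0) :
    LinearIndependent κ (fun i : Fin (d + 1) => (N ^ (i : ℕ)) u) := by
  rw [Fintype.linearIndependent_iff]
  intro g hg
  have key : ∀ k : ℕ, ∀ hk : k < d + 1, g ⟨k, hk⟩ = 0 := by
    intro k
    induction k using Nat.strong_induction_on with
    | _ k ih =>
      intro hk
      have h3 := congrArg (N ^ (d - k)) hg
      rw [map_sum, map_zero, Finset.sum_eq_single ⟨k, hk⟩] at h3
      · rw [map_smul, ← Module.End.mul_apply, ← pow_add] at h3
        have h4 : d - k + k = d := by omega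
        rw [h4] at h3
        exact (smul_eq_zero.1 h3).resolve_right h1
      · intro j _ hj
        rcases lt_trichotomy (j : ℕ) k with h | h | h
        · rw [ih j h j.2, zero_smul, map_zero]
        · exact absurd (Fin.ext h) hj
        · rw [map_smul, ← Module.End.mul_apply, ← pow_add, h2 _ (by omega), smul_zero]
      · intro h
        exact absurd (Finset.mem_univ _) h
  intro i
  exact key i i.2

/-- a nonzero function on `F_p` with `z` zeros: its translates span a space of dimension `≥ z+1` -/
theorem translates_dim (u : ZMod p → κ) (hu : u ≠ 0) (n : ℕ)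
    (hn : n ≤ (univ.filter fun x => u x = 0).card) :
    n + 1 ≤ Module.finrank κ
      (Submodule.span κ (Set.range fun s : ZMod p => fun x => u (x + s))) := by
  set A := Submodule.span κ (Set.range fun s : ZMod p => fun x => u (x + s)) with hA
  have huA : u ∈ A := Submodule.subset_span ⟨0, by simp⟩
  obtain rfl | hp := eq_or_ne p 2
  · -- characteristic two
    have hcard : (univ.filter fun x => u x = 0).card < 2 := by
      by_contra hcon
      have h1 : (univ.filter fun x : ZMod 2 => u x = 0) = univ := by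
        refine Finset.eq_univ_of_card _ (le_antisymm (Finset.card_le_univ _) ?_)
        rw [ZMod.card]
        omega
      refine hu (funext fun x => ?_)
      have := Finset.mem_univ x
      rw [← h1, Finset.mem_filter] at this
      exact this.2
    obtain h0 | ⟨x0, hx0⟩ := (univ.filter fun x : ZMod 2 => u x = 0).eq_empty_or_nonempty
    · rw [h0, Finset.card_empty] at hn
      have : 0 < Module.finrank κ A := by
        rw [Module.finrank_pos_iff_exists_ne_zero]
        exact ⟨⟨u, huA⟩, fun h => hu (congrArg Subtype.val h)⟩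
      omega
    · have hx0' : u x0 = 0 := (Finset.mem_filter.1 hx0).2
      have hx1 : u (x0 + 1) ≠ 0 := by
        intro h
        refine hu (funext fun x => ?_)
        have : x = x0 ∨ x = x0 + 1 := by
          have hh := der_zmod_two x x0
          exact hh
        rcases this with rfl | rfl
        · exact hx0'
        · exact h
      have hli : LinearIndependent κ ![u, fun x => u (x + 1)] := by
        rw [LinearIndependent.pair_iff]
        intro s t hst
        have e1 := congrFun hst x0
        have e2 := congrFun hst (x0 + 1)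
        simp only [Pi.add_apply, Pi.smul_apply, smul_eq_mul, Pi.zero_apply, hx0', mul_zero,
          zero_add] at e1 e2
        have ht : t = 0 := (mul_eq_zero.1 e1).resolve_right hx1
        rw [ht, zero_mul, add_zero] at e2
        exact ⟨(mul_eq_zero.1 e2).resolve_right hx1, ht⟩
      have h2 := finrank_span_eq_card hli
      have h3 : Submodule.span κ (Set.range ![u, fun x => u (x + 1)]) ≤ A := by
        rw [Submodule.span_le]
        rintro _ ⟨i, rfl⟩
        fin_cases i
        · exact huA
        · exact Submodule.subset_span ⟨1, rfl⟩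
      have h4 := Submodule.finrank_mono h3
      rw [h2, Fintype.card_fin] at h4
      omega
  · -- odd characteristic
    have hstab : ∀ f ∈ A, ∀ r : ZMod p, (fun x => f (x + r)) ∈ A := by
      intro f hf r
      refine Submodule.span_induction (p := fun f _ => (fun x => f (x + r)) ∈ A)
        ?_ ?_ ?_ ?_ hf
      · rintro _ ⟨s, rfl⟩
        refine Submodule.subset_span ⟨r + s, ?_⟩
        funext x
        simp only [add_assoc]
      · exact A.zero_mem
      · intro g h _ _ hg hh
        exact A.add_mem hg hh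
      · intro a g _ hg
        exact A.smul_mem a hg
    have hd : ∀ f ∈ A, d1 f ∈ A := by
      intro f hf
      have h : d1 f = -∑ s : ZMod p, emb κ s⁻¹ • (fun x => f (x + s)) := by
        funext x
        rw [d1_apply, Pi.neg_apply, Finset.sum_apply]
        rfl
      rw [h]
      exact A.neg_mem (A.sum_mem fun s _ => A.smul_mem _ (hstab f hf _))
    have hdk : ∀ k, (d1 ^ k) u ∈ A := by
      intro k
      induction k with
      | zero => simpa using huA
      | succ k ih =>
        rw [pow_succ', Module.End.mul_apply]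
        exact hd _ ih
    have hex : ∃ m, (d1 ^ m) u = 0 := ⟨p, d1_pow_p hp u⟩
    obtain ⟨d, hd1, hd2⟩ : ∃ d, (d1 ^ d) u ≠ 0 ∧ (d1 ^ (d + 1)) u = 0 := by
      have h1 := Nat.find_spec hex
      have h2 : Nat.find hex ≠ 0 := by
        intro h
        rw [h, pow_zero] at h1
        exact hu h1
      refine ⟨Nat.find hex - 1, Nat.find_min hex (by omega), ?_⟩
      rw [Nat.sub_add_cancel (by omega)]
      exact h1
    have hd3 : ∀ k, d < k → (d1 ^ k) u = 0 := by
      intro k hk
      obtain ⟨c, rfl⟩ := Nat.exists_eq_add_of_lt hk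
      rw [show d + c + 1 = c + (d + 1) by ring, pow_add, Module.End.mul_apply, hd2, map_zero]
    have hli := der_indep d1 u d hd1 hd3
    have h2 := finrank_span_eq_card hli
    have h3 : Submodule.span κ (Set.range fun i : Fin (d + 1) => (d1 ^ (i : ℕ)) u) ≤ A := by
      rw [Submodule.span_le]
      rintro _ ⟨i, rfl⟩
      exact hdk i
    have h4 := Submodule.finrank_mono h3
    rw [h2, Fintype.card_fin] at h4
    -- the number of zeros is at most `d`
    set P : Polynomial κ := ∑ k ∈ range p, Polynomial.C ((d1 ^ k) u 0 / (k.factorial : κ))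
      * Polynomial.X ^ k with hP
    have hev : ∀ s : ZMod p, P.eval (emb κ s) = u s := by
      intro s
      have h5 := d1_taylor hp u 0 s
      rw [zero_add] at h5
      rw [h5, hP, Polynomial.eval_finsetSum]
      refine Finset.sum_congr rfl fun k _ => ?_
      simp only [Polynomial.eval_mul, Polynomial.eval_C, Polynomial.eval_pow, Polynomial.eval_X]
      ring
    have hP0 : P ≠ 0 := by
      intro h
      refine hu (funext fun s => ?_)
      rw [← hev s, h, Polynomial.eval_zero]
      rfl
    have hdeg : P.natDegree ≤ d := by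
      rw [hP]
      refine Polynomial.natDegree_sum_le_of_forall_le _ _ fun k _ => ?_
      by_cases hk : k ≤ d
      · exact (Polynomial.natDegree_C_mul_X_pow_le _ _).trans hk
      · rw [hd3 k (by omega)]
        simp
    have hinj : Function.Injective (emb (p := p) κ) := (emb (p := p) κ).injective
    have h5 : ((univ.filter fun x => u x = 0).image (emb (p := p) κ)).card ≤ P.natDegree := by
      refine Polynomial.card_le_degree_of_subset_roots ?_
      intro y hy
      rw [Finset.mem_val, Finset.mem_image] at hy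
      obtain ⟨x, hx, rfl⟩ := hy
      rw [Polynomial.mem_roots hP0, Polynomial.IsRoot.def, hev]
      exact (Finset.mem_filter.1 hx).2
    rw [Finset.card_image_of_injective _ hinj] at h5
    omega

end Pool.Agent.Lib.MP_d0f9e0_co.WHFin
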