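import Pool.Agent.Lib.MP_d0f9e0_co.WHFin.Res

/-!
# Symmetries: chirps and Fourier transform
-/

set_option autoImplicit false

namespace Pool.Agent.Lib.MP_d0f9e0_co.WHFin

open Finset

variable {p : ℕ} [Fact p.Prime] {K : Type*} [Field K]

/-- chirp: `A'_{a,b} = χ(-(c/2) a²) A_{a,b-ca}` -/
theorem exists_chirp (hp : p ≠ 2) (χ : AddChar (ZMod p) K) (ψ φ : ZMod p → K)
    (h : IsWH χ ψ φ) (c : ZMod p) :
    ∃ ψ' φ' : ZMod p → K, IsWH χ ψ' φ' ∧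
      ∀ a b, ov χ ψ' φ' a b = χ (-(c / 2 * a ^ 2)) * ov χ ψ φ a (b - c * a) := by
  sorry

/-- Fourier: `A'_{a,b} = χ(-ab) A_{b,-a}` -/
theorem exists_fourier (hpK : (p : K) ≠ 0) (χ : AddChar (ZMod p) K) (hχ : χ ≠ 1)
    (ψ φ : ZMod p → K) (h : IsWH χ ψ φ) :
    ∃ ψ' φ' : ZMod p → K, IsWH χ ψ' φ' ∧
      ∀ a b, ov χ ψ' φ' a b = χ (-(a * b)) * ov χ ψ φ b (-a) := by
  sorry

/-- every direction can be moved to the direction `(0,1)` -/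
theorem exists_straighten (hp : p ≠ 2) (hpK : (p : K) ≠ 0) (V : ValuationSubring K)
    (χ : AddChar (ZMod p) K) (hχ : χ ≠ 1) (ψ φ : ZMod p → K) (h : IsWH χ ψ φ)
    (μ : V.ValueGroup) (hμ : ∀ a b, V.valuation (ov χ ψ φ a b) ≤ μ)
    (v : ZMod p × ZMod p) (hv : v ≠ 0) (q : ZMod p × ZMod p)
    (hq : ∀ s : ZMod p, V.valuation (ov χ ψ φ (q.1 + s * v.1) (q.2 + s * v.2)) = μ) :
    ∃ ψ' φ' : ZMod p → K, IsWH χ ψ' φ' ∧ (∀ a b, V.valuation (ov χ ψ' φ' a b) ≤ μ) ∧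
      ∃ a₀, ∀ b, V.valuation (ov χ ψ' φ' a₀ b) = μ := by
  sorry

end Pool.Agent.Lib.MP_d0f9e0_co.WHFin
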