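import Pool.Agent.Lib.MP_d0f9e0_co.WHFin.Cheb
import Pool.Agent.Lib.MP_d0f9e0_co.WHFin.Class
import Pool.Agent.Lib.MP_d0f9e0_co.WHFin.Sym

/-!
# The valuation of the overlaps is constant on the cosets of a line
-/

set_option autoImplicit false

namespace Pool.Agent.Lib.MP_d0f9e0_co.WHFin

open Finset Classical

variable {p : ℕ} [Fact p.Prime] {K : Type*} [Field K]

section

variable (V : ValuationSubring K) (χ : AddChar (ZMod p) K)

/-- the sup norms of a function and of its Fourier transform agree (away from `p`) -/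
theorem dft_le_iff (hpV : V.valuation (p : K) = 1) (hχ : χ ≠ 1) (h : ZMod p → K)
    (γ : V.ValueGroup) :
    (∀ x, V.valuation (h x) ≤ γ) ↔ ∀ b, V.valuation (∑ x, h x * χ (b * x)) ≤ γ := by
  sorry

/-- if `|ĥ(b) ĥ'(-b)| < ‖h‖ ‖h'‖` for all `b` then many values of `h, h'` are maximal -/
theorem many_max (hV : ∀ n : ℕ, n ≠ 0 → V.valuation (n : K) = 1) (hχ : χ ≠ 1)
    (h h' : ZMod p → K) (γ γ' : V.ValueGroup) (hγ : ∀ x, V.valuation (h x) ≤ γ)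
    (hγ' : ∀ x, V.valuation (h' x) ≤ γ') (hx : ∃ x, h x ≠ 0 ∧ V.valuation (h x) = γ)
    (hx' : ∃ x, h' x ≠ 0 ∧ V.valuation (h' x) = γ')
    (hb : ∀ b, V.valuation ((∑ x, h x * χ (b * x)) * (∑ x, h' x * χ (-b * x))) < γ * γ') :
    p + 2 ≤ (univ.filter fun x => V.valuation (h x) = γ).card
      + (univ.filter fun x => V.valuation (h' x) = γ').card := by
  sorry

/-- all overlaps have norms `w(a,b)` with `w(a,b) w(-a,-b) = 1` -/
theorem val_pair (hV : ∀ n : ℕ, n ≠ 0 → V.valuation (n : K) = 1) (ψ φ : ZMod p → K)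
    (h : IsWH χ ψ φ) (a b : ZMod p) :
    V.valuation (ov χ ψ φ a b) * V.valuation (ov χ ψ φ (-a) (-b)) = 1 := by
  sorry

/-- the leading term is nonzero on an affine line, so the norm is maximal there -/
theorem exists_line (hp : p ≠ 2) (hV : ∀ n : ℕ, n ≠ 0 → V.valuation (n : K) = 1) (hχ : χ ≠ 1)
    (ψ φ : ZMod p → K) (h : IsWH χ ψ φ) (hbig : ∃ a b, 1 < V.valuation (ov χ ψ φ a b)) :
    ∃ μ : V.ValueGroup, 1 < μ ∧ (∀ a b, V.valuation (ov χ ψ φ a b) ≤ μ) ∧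
      ∃ v : ZMod p × ZMod p, v ≠ 0 ∧ ∃ q : ZMod p × ZMod p,
        ∀ s : ZMod p, V.valuation (ov χ ψ φ (q.1 + s * v.1) (q.2 + s * v.2)) = μ := by
  sorry

/-- if the norm is maximal (`> 1`) on a coset `{a₀} × F_p` then all diagonal products are integral -/
theorem diag_le_one (hp : p ≠ 2) (hV : ∀ n : ℕ, n ≠ 0 → V.valuation (n : K) = 1) (hχ : χ ≠ 1)
    (ψ φ : ZMod p → K) (h : IsWH χ ψ φ) (μ : V.ValueGroup) (hμ1 : 1 < μ)
    (hμ : ∀ a b, V.valuation (ov χ ψ φ a b) ≤ μ) (a₀ : ZMod p)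
    (ha₀ : ∀ b, V.valuation (ov χ ψ φ a₀ b) = μ) (x : ZMod p) :
    V.valuation (ψ x * φ x) ≤ 1 := by
  sorry

/-- if all diagonal products are integral then the norm of `A_{a,b}` does not depend on `b` and
bounds all products `ψ(x) φ(x+a)` -/
theorem val_const (hV : ∀ n : ℕ, n ≠ 0 → V.valuation (n : K) = 1) (hχ : χ ≠ 1)
    (ψ φ : ZMod p → K) (h : IsWH χ ψ φ) (hd : ∀ x, V.valuation (ψ x * φ x) ≤ 1)
    (a b : ZMod p) :
    V.valuation (ov χ ψ φ a b) = V.valuation (ov χ ψ φ a 0) ∧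
      ∀ x, V.valuation (ψ x * φ (x + a)) ≤ V.valuation (ov χ ψ φ a 0) := by
  sorry

/-- assembly -/
theorem partC (hp : p ≠ 2) [CharZero K] (hV : ∀ n : ℕ, n ≠ 0 → V.valuation (n : K) = 1)
    (hχ : χ ≠ 1) (ψ φ : ZMod p → K) (h : IsWH χ ψ φ)
    (hbig : ∃ a b, 1 < V.valuation (ov χ ψ φ a b)) :
    ∃ ψ' φ' : ZMod p → K, IsWH χ ψ' φ' ∧ (∃ a, 1 < V.valuation (ov χ ψ' φ' a 0)) ∧
      (∀ a b, V.valuation (ov χ ψ' φ' a b) = V.valuation (ov χ ψ' φ' a 0)) ∧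
      (∀ a x, V.valuation (ψ' x * φ' (x + a)) ≤ V.valuation (ov χ ψ' φ' a 0)) := by
  sorry

end

end Pool.Agent.Lib.MP_d0f9e0_co.WHFin
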