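import Pool.Agent.Lib.MP_d0f9e0_co.WHFin.PartD

/-!
# Algebraicity and finiteness
-/

set_option autoImplicit false

namespace Pool.Agent.Lib.MP_d0f9e0_co.WHFin

open Finset Classical

variable {p : ℕ} [Fact p.Prime] {K : Type*} [Field K] [CharZero K]

/-- every solution of the Weyl-Heisenberg SIC equations over a field of characteristic zero has
algebraic overlaps -/
theorem ov_algebraic (hp : 5 ≤ p) (χ : AddChar (ZMod p) K) (hχ : χ ≠ 1) (ψ φ : ZMod p → K)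
    (h : IsWH χ ψ φ) (a b : ZMod p) : IsAlgebraic ℚ (ov χ ψ φ a b) := by
  by_contra hz
  obtain ⟨V, hVQ, hV⟩ := exists_val_trans _ hz
  have hV' : ∀ n : ℕ, n ≠ 0 → V.valuation (n : K) = 1 := val_nat_of_rat V hVQ
  obtain ⟨ψ', φ', h', ⟨a', ha'⟩, hw, hm⟩ := partC V χ (by omega) hV' hχ ψ φ h ⟨a, b, hV⟩
  exact absurd (partD hp V χ hV' hχ ψ' φ' h' hw hm a') ha'.ne'

/-- the rank one matrix `ψ φᵀ` has algebraic entries -/
theorem entry_algebraic (hp : 5 ≤ p) (χ : AddChar (ZMod p) K) (hχ : χ ≠ 1) (ψ φ : ZMod p → K)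
    (h : IsWH χ ψ φ) (x y : ZMod p) : IsAlgebraic ℚ (ψ x * φ y) := by
  sorry

/-- finiteness of the set of solutions over `ℂ` -/
theorem finite_solutions (hp : 5 ≤ p) (χ : AddChar (ZMod p) ℂ) (hχ : χ ≠ 1) :
    {P : ZMod p → ZMod p → ℂ | ∃ ψ φ : ZMod p → ℂ, IsWH χ ψ φ ∧
      P = fun x y => ψ x * φ y}.Finite := by
  sorry

end Pool.Agent.Lib.MP_d0f9e0_co.WHFin
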