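import Pool.Agent.Lib.MP_d0f9e0_co.WHFin.Defs
import Pool.Agent.Lib.MP_d0f9e0_co.Fin.Cheb

/-!
# Sparse polynomials in characteristic `p`
-/

set_option autoImplicit false

namespace Pool.Agent.Lib.MP_d0f9e0_co.WHFin

open Polynomial

variable {p : ℕ} [Fact p.Prime] {κ : Type*} [Field κ] [CharP κ p]

/-- a nonzero polynomial of degree `< p` in characteristic `p` divisible by `(X-1)^n` has more
than `n` terms -/
theorem sparse (P : κ[X]) (hP : P ≠ 0) (hdeg : P.natDegree < p) (n : ℕ)
    (h : (X - 1) ^ n ∣ P) : n < P.support.card := by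
  classical
  have hp0 : p ≠ 0 := (Fact.out : p.Prime).ne_zero
  set c : ZMod p → κ := fun j => P.coeff j.val with hc
  have hgp : Pool.Agent.Lib.MP_d0f9e0_co.SicFin.gp c = P := by
    ext m
    by_cases hm : m < p
    · have h1 := Pool.Agent.Lib.MP_d0f9e0_co.SicFin.gp_coeff c (m : ZMod p)
      rw [ZMod.val_natCast_of_lt hm] at h1
      rw [h1, hc]
      simp only
      rw [ZMod.val_natCast_of_lt hm]
    · rw [coeff_eq_zero_of_natDegree_lt (lt_of_lt_of_le hdeg (not_lt.mp hm))]
      unfold Pool.Agent.Lib.MP_d0f9e0_co.SicFin.gp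
      rw [finsetSum_coeff]
      apply Finset.sum_eq_zero
      intro j _
      rw [coeff_C_mul, coeff_X_pow, if_neg, mul_zero]
      intro hj
      exact hm (hj ▸ ZMod.val_lt j)
  have hcne : c ≠ 0 := by
    intro h0
    apply hP
    rw [← hgp, h0]
    unfold Pool.Agent.Lib.MP_d0f9e0_co.SicFin.gp
    simp
  have h1 := Pool.Agent.Lib.MP_d0f9e0_co.SicFin.lt_card_supp _ c n rfl hcne (by rw [hgp]; exact h)
  refine h1.trans_le ?_
  apply Finset.card_le_card_of_injOn (fun j : ZMod p => j.val)
  · intro j hj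
    have hj' : c j ≠ 0 := by simpa using hj
    exact mem_support_iff.mpr hj'
  · intro a _ b _ hab
    exact ZMod.val_injective p hab

end Pool.Agent.Lib.MP_d0f9e0_co.WHFin
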